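import Pool.Agent.Helper51.NP.Defs
import Pool.Agent.Helper34.PG.HarrisEnv
import Pool.Agent.Helper33.PG.Upd

/-!
# Block A: Harris' inequality, the annealed passage times and the annealed norms (owner: helper34)
-/

set_option autoImplicit false

namespace Pool.Agent.Helper51.NP

open MeasureTheory ProbabilityTheory Filter Pool.Agent.Helper79.GR Pool.Agent.Helper79.GQ
open scoped Topology

section det

variable {d : ℕ} {a b B : ℝ} {c : Edge d → ℝ}

private theorem cut_mem {S : Set (Edge d)} {e : Edge d} (he : e ∈ S) : cut S B c e = c e := by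
  unfold cut Set.piecewise
  rw [if_pos he]

private theorem cut_not {S : Set (Edge d)} {e : Edge d} (he : e ∉ S) : cut S B c e = B := by
  unfold cut Set.piecewise
  rw [if_neg he]

theorem cut_bd (h : Bd a b c) (hB : b ≤ B) (S : Set (Edge d)) : Bd a B (cut S B c) := by
  refine ⟨h.1, fun e => ?_⟩
  by_cases he : e ∈ S
  · rw [cut_mem he]
    exact ⟨(h.2 e).1, (h.2 e).2.trans hB⟩
  · rw [cut_not he]
    exact ⟨(h.2 e).1.trans ((h.2 e).2.trans hB), le_rfl⟩

theorem T_le_cut (h : Bd a b c) (hB : b ≤ B) (S : Set (Edge d)) (x y : V d) :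
    T c x y ≤ T (cut S B c) x y := by
  refine Pool.Agent.Helper33.PG.T_mono h (cut_bd h hB S) (fun e => ?_) x y
  by_cases he : e ∈ S
  · rw [cut_mem he]
  · rw [cut_not he]
    exact (h.2 e).2.trans hB

theorem cut_univ (S : Set (Edge d)) (hS : ∀ e, e ∈ S) : cut S B c = c := by
  funext e
  exact cut_mem (hS e)

theorem T_nonneg' (h : Bd a b c) (x y : V d) : 0 ≤ T c x y :=
  (mul_nonneg h.1.le (n1_nonneg _)).trans (le_T h x y)

theorem T_comm' (h : Bd a b c) (x y : V d) : T c x y = T c y x := T_symm c x y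

end det

variable {Ω : Type*} [MeasurableSpace Ω] {P : Measure Ω} {d : ℕ} {X : Edge d → Ω → ℝ}
  {ν : Measure ℝ} {a b B l : ℝ}

theorem measurable_Tc (h : Env P X ν a b) (S : Set (Edge d)) (B : ℝ) (x y : V d) :
    Measurable fun ω => T (cut S B (cf X ω)) x y := by
  refine (measurable_T_cfg x y).comp (measurable_pi_lambda _ fun e => ?_)
  by_cases he : e ∈ S
  · have : (fun ω => cut S B (cf X ω) e) = X e := by
      funext ω
      rw [cut_mem he]
      rfl
    rw [this]
    exact h.meas e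
  · have : (fun ω => cut S B (cf X ω) e) = fun _ => B := by
      funext ω
      rw [cut_not he]
    rw [this]
    exact measurable_const

theorem integrable_Tc (h : Env P X ν a b) (hB : b ≤ B) (S : Set (Edge d)) (x y : V d) :
    Integrable (fun ω => T (cut S B (cf X ω)) x y) P := by
  have := h.prob
  refine Integrable.of_bound (measurable_Tc h S B x y).aestronglyMeasurable (B * n1 (y - x))
    (Filter.Eventually.of_forall fun ω => ?_)
  have hc := cut_bd (h.cf_bd ω) hB S
  rw [Real.norm_eq_abs, abs_of_nonneg (T_nonneg' hc x y)]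
  exact T_le hc x y

theorem integrable_exp_Tc (h : Env P X ν a b) (hB : b ≤ B) (S : Set (Edge d)) (l : ℝ)
    (x y : V d) : Integrable (fun ω => Real.exp (l * T (cut S B (cf X ω)) x y)) P := by
  have := h.prob
  refine Integrable.of_bound
    (Real.measurable_exp.comp ((measurable_Tc h S B x y).const_mul l)).aestronglyMeasurable
    (Real.exp (|l| * (B * n1 (y - x)))) (Filter.Eventually.of_forall fun ω => ?_)
  have hc := cut_bd (h.cf_bd ω) hB S
  rw [Real.norm_eq_abs, abs_of_nonneg (Real.exp_pos _).le]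
  refine Real.exp_le_exp.2 ?_
  calc l * T (cut S B (cf X ω)) x y ≤ |l| * T (cut S B (cf X ω)) x y :=
        mul_le_mul_of_nonneg_right (le_abs_self l) (T_nonneg' hc x y)
    _ ≤ |l| * (B * n1 (y - x)) := mul_le_mul_of_nonneg_left (T_le hc x y) (abs_nonneg l)

theorem integrable_exp_T (h : Env P X ν a b) (l : ℝ) (x y : V d) :
    Integrable (fun ω => Real.exp (l * T (cf X ω) x y)) P := by
  have h1 := integrable_exp_Tc h le_rfl Set.univ l x y
  have h2 : ∀ ω, cut Set.univ b (cf X ω) = cf X ω := fun ω =>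
    cut_univ _ fun e => Set.mem_univ e
  simpa only [h2] using h1

private theorem integrable_expn (h : Env P X ν a b) (l : ℝ) (x y : V d) :
    Integrable (fun ω => Real.exp (-(l * T (cf X ω) x y))) P := by
  have h1 := integrable_exp_T h (-l) x y
  simpa only [neg_mul] using h1

private theorem integrable_expnc (h : Env P X ν a b) (hB : b ≤ B) (S : Set (Edge d)) (l : ℝ)
    (x y : V d) : Integrable (fun ω => Real.exp (-(l * T (cut S B (cf X ω)) x y))) P := by
  have h1 := integrable_exp_Tc h hB S (-l) x y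
  simpa only [neg_mul] using h1

/-- the mean is between `m` and `B n1` -/
theorem mm_le_mc (h : Env P X ν a b) (hB : b ≤ B) (S : Set (Edge d)) (x y : V d) :
    mm P X (y - x) ≤ mc P X S B x y := by
  rw [← integral_T h x y]
  exact integral_mono (integrable_T h x y) (integrable_Tc h hB S x y)
    fun ω => T_le_cut (h.cf_bd ω) hB S x y

theorem mc_le (h : Env P X ν a b) (hB : b ≤ B) (S : Set (Edge d)) (x y : V d) :
    mc P X S B x y ≤ B * n1 (y - x) := by
  have := h.prob
  have h1 : ∫ _ω : Ω, B * n1 (y - x) ∂P = B * n1 (y - x) := by simp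
  rw [← h1]
  exact integral_mono (integrable_Tc h hB S x y) (integrable_const _)
    fun ω => T_le (cut_bd (h.cf_bd ω) hB S) x y

theorem Zc_le_Z (h : Env P X ν a b) (hB : b ≤ B) (S : Set (Edge d)) (hl : 0 ≤ l) (x y : V d) :
    Zc P X S B l x y ≤ Z P X l x y := by
  refine integral_mono (integrable_expnc h hB S l x y) (integrable_expn h l x y) fun ω => ?_
  refine Real.exp_le_exp.2 (neg_le_neg ?_)
  exact mul_le_mul_of_nonneg_left (T_le_cut (h.cf_bd ω) hB S x y) hl

theorem Zc_pos (h : Env P X ν a b) (hB : b ≤ B) (S : Set (Edge d)) (x y : V d) :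
    0 < Zc P X S B l x y := by
  have := h.prob
  exact integral_exp_pos (integrable_expnc h hB S l x y)

theorem Z_pos (h : Env P X ν a b) (x y : V d) : 0 < Z P X l x y := by
  have := h.prob
  exact integral_exp_pos (integrable_expn h l x y)

theorem Z_le_exp (h : Env P X ν a b) (hl : 0 ≤ l) (x y : V d) :
    Z P X l x y ≤ Real.exp (-(l * (a * n1 (y - x)))) := by
  have := h.prob
  have h1 : ∫ _ω : Ω, Real.exp (-(l * (a * n1 (y - x)))) ∂P =
      Real.exp (-(l * (a * n1 (y - x)))) := by simp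
  rw [← h1]
  refine integral_mono (integrable_expn h l x y) (integrable_const _) fun ω => ?_
  refine Real.exp_le_exp.2 (neg_le_neg ?_)
  exact mul_le_mul_of_nonneg_left (le_T (h.cf_bd ω) x y) hl

theorem exp_le_Z (h : Env P X ν a b) (hl : 0 ≤ l) (x y : V d) :
    Real.exp (-(l * (b * n1 (y - x)))) ≤ Z P X l x y := by
  have := h.prob
  have h1 : ∫ _ω : Ω, Real.exp (-(l * (b * n1 (y - x)))) ∂P =
      Real.exp (-(l * (b * n1 (y - x)))) := by simp
  rw [← h1]
  refine integral_mono (integrable_const _) (integrable_expn h l x y) fun ω => ?_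
  refine Real.exp_le_exp.2 (neg_le_neg ?_)
  exact mul_le_mul_of_nonneg_left (T_le (h.cf_bd ω) x y) hl

theorem Z_shift (h : Env P X ν a b) (l : ℝ) (v x y : V d) :
    Z P X l (x + v) (y + v) = Z P X l x y := by
  have h1 := (identDistrib_T h v x y).comp
    (u := fun t : ℝ => Real.exp (-(l * t))) (by fun_prop)
  exact h1.integral_eq

theorem Z_comm (h : Env P X ν a b) (l : ℝ) (x y : V d) : Z P X l x y = Z P X l y x := by
  unfold Z
  simp only [T_symm _ x y]

theorem Z_eq_zero_sub (h : Env P X ν a b) (l : ℝ) (x y : V d) :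
    Z P X l x y = Z P X l 0 (y - x) := by
  have h1 := Z_shift h l x 0 (y - x)
  rw [zero_add, sub_add_cancel] at h1
  exact h1

/-- Harris' inequality -/
theorem Z_mul_le (h : Env P X ν a b) (hl : 0 ≤ l) (x y z : V d) :
    Z P X l x y * Z P X l y z ≤ Z P X l x z := by
  have := h.prob
  classical
  obtain ⟨L, hL⟩ := exists_nat_ge ((b * n1 (y - x)) / a)
  obtain ⟨L', hL'⟩ := exists_nat_ge ((b * n1 (z - y)) / a)
  have hL1 : b * n1 (y - x) ≤ a * L := by
    rw [div_le_iff₀ h.apos] at hL
    linarith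
  have hL2 : b * n1 (z - y) ≤ a * L' := by
    rw [div_le_iff₀ h.apos] at hL'
    linarith
  have m1 : ∀ x y : V d, Measurable fun c : Edge d → ℝ => Real.exp (-(l * T c x y)) :=
    fun x y => Real.measurable_exp.comp ((measurable_T_cfg x y).const_mul l).neg
  have hone : ∀ (x y : V d) (c : Edge d → ℝ), Bd a b c → Real.exp (-(l * T c x y)) ≤ 1 := by
    intro x y c hc
    rw [Real.exp_le_one_iff]
    have := mul_nonneg hl (T_nonneg' hc x y)
    linarith
  have hbd : ∀ (x y : V d) (c : Edge d → ℝ), Bd a b c →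
      |Real.exp (-(l * T c x y))| ≤ 1 := by
    intro x y c hc
    rw [abs_of_nonneg (Real.exp_pos _).le]
    exact hone x y c hc
  have hmo : ∀ (x y : V d) (c c' : Edge d → ℝ), Bd a b c → Bd a b c' → (∀ e, c e ≤ c' e) →
      Real.exp (-(l * T c' x y)) ≤ Real.exp (-(l * T c x y)) := by
    intro x y c c' hc hc' hcc
    refine Real.exp_le_exp.2 (neg_le_neg ?_)
    exact mul_le_mul_of_nonneg_left (Pool.Agent.Helper33.PG.T_mono hc hc' hcc x y) hl
  have h1 := Pool.Agent.Helper34.PG.harris_env h (box x L ∪ box y L')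
    (fun c => Real.exp (-(l * T c x y)))
    (fun c => Real.exp (-(l * T c y z))) (m1 x y) (m1 y z) 1 (hbd x y) (hbd y z) (hmo x y)
    (hmo y z)
    (fun c c' hc hc' hcc => by
      rw [T_congr hc hc' x y L hL1 fun e he => hcc e (Finset.mem_union_left _ he)])
    (fun c c' hc hc' hcc => by
      rw [T_congr hc hc' y z L' hL2 fun e he => hcc e (Finset.mem_union_right _ he)])
  refine h1.trans ?_
  refine integral_mono ?_ (integrable_expn h l x z) fun ω => ?_
  · refine Integrable.of_bound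
      (((m1 x y).comp (measurable_pi_lambda (fun ω => cf X ω) h.meas)).mul
        ((m1 y z).comp (measurable_pi_lambda (fun ω => cf X ω) h.meas))).aestronglyMeasurable 1
      (Filter.Eventually.of_forall fun ω => ?_)
    rw [Real.norm_eq_abs]
    show |Real.exp (-(l * T (cf X ω) x y)) * Real.exp (-(l * T (cf X ω) y z))| ≤ 1
    rw [abs_mul, abs_of_nonneg (Real.exp_pos _).le,
      abs_of_nonneg (Real.exp_pos _).le]
    exact mul_le_one₀ (hone x y _ (h.cf_bd ω)) (Real.exp_pos _).le (hone y z _ (h.cf_bd ω))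
  · show Real.exp (-(l * T (cf X ω) x y)) * Real.exp (-(l * T (cf X ω) y z)) ≤
      Real.exp (-(l * T (cf X ω) x z))
    rw [← Real.exp_add]
    refine Real.exp_le_exp.2 ?_
    have h2 := mul_le_mul_of_nonneg_left (T_triangle (h.cf_bd ω) x y z) hl
    linarith

theorem Z_eq (h : Env P X ν a b) (hl : 0 < l) (v : V d) :
    Z P X l 0 v = Real.exp (-(l * al P X l v)) := by
  have h1 : -(l * al P X l v) = Real.log (Z P X l 0 v) := by
    unfold al
    field_simp
  rw [h1, Real.exp_log (Z_pos h 0 v)]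

private theorem al_le_iff (h : Env P X ν a b) (hl : 0 < l) (v : V d) (t : ℝ) :
    al P X l v ≤ t ↔ Real.exp (-(l * t)) ≤ Z P X l 0 v := by
  rw [Z_eq h hl v, Real.exp_le_exp, neg_le_neg_iff, mul_le_mul_iff_right₀ hl]

private theorem le_al_iff (h : Env P X ν a b) (hl : 0 < l) (v : V d) (t : ℝ) :
    t ≤ al P X l v ↔ Z P X l 0 v ≤ Real.exp (-(l * t)) := by
  rw [Z_eq h hl v, Real.exp_le_exp, neg_le_neg_iff, mul_le_mul_iff_right₀ hl]

theorem subM_al (h : Env P X ν a b) (hl : 0 < l) : SubM a b (al P X l) := by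
  refine ⟨h.apos, fun x y => ?_, fun x => ?_, fun x => ?_⟩
  · rw [al_le_iff h hl, mul_add, neg_add, Real.exp_add, ← Z_eq h hl, ← Z_eq h hl]
    have h1 := Z_mul_le h hl.le 0 x (x + y)
    rwa [Z_eq_zero_sub h l x (x + y), add_sub_cancel_left] at h1
  · rw [le_al_iff h hl]
    have h1 := Z_le_exp h hl.le 0 x
    rwa [sub_zero] at h1
  · rw [al_le_iff h hl]
    have h1 := exp_le_Z h hl.le 0 x
    rwa [sub_zero] at h1

theorem al_le_mm (h : Env P X ν a b) (hl : 0 < l) (v : V d) : al P X l v ≤ mm P X v := by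
  have := h.prob
  rw [al_le_iff h hl]
  have h1 : -(l * mm P X v) = ∫ ω, -(l * T (cf X ω) 0 v) ∂P := by
    rw [integral_neg, integral_const_mul]
    rfl
  rw [h1]
  exact convexOn_exp.map_integral_le Real.continuous_exp.continuousOn isClosed_univ
    (Filter.Eventually.of_forall fun ω => Set.mem_univ _)
    ((integrable_T h 0 v).const_mul l).neg (integrable_expn h l 0 v)

theorem al_anti (h : Env P X ν a b) (hl : 0 < l) {l' : ℝ} (hll : l ≤ l') (v : V d) :
    al P X l' v ≤ al P X l v := by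
  have := h.prob
  have hl' : 0 < l' := hl.trans_le hll
  rw [al_le_iff h hl']
  have h1 : 1 ≤ l' / l := by rwa [one_le_div hl]
  have h2 : (Z P X l 0 v) ^ (l' / l) ≤ Z P X l' 0 v := by
    have h3 := (convexOn_rpow h1).map_integral_le (μ := P)
      (f := fun ω => Real.exp (-(l * T (cf X ω) 0 v)))
      (Real.continuous_rpow_const (by positivity)).continuousOn isClosed_Ici
      (Filter.Eventually.of_forall fun ω => (Real.exp_pos _).le) (integrable_expn h l 0 v)
      (by
        refine (integrable_expn h l' 0 v).congr (Filter.Eventually.of_forall fun ω => ?_)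
        show Real.exp (-(l' * T (cf X ω) 0 v)) =
          (Real.exp (-(l * T (cf X ω) 0 v))) ^ (l' / l)
        rw [← Real.exp_mul]
        congr 1
        field_simp)
    refine h3.trans (le_of_eq ?_)
    refine integral_congr_ae (Filter.Eventually.of_forall fun ω => ?_)
    show (Real.exp (-(l * T (cf X ω) 0 v))) ^ (l' / l) = Real.exp (-(l' * T (cf X ω) 0 v))
    rw [← Real.exp_mul]
    congr 1
    field_simp
  refine le_trans (le_of_eq ?_) h2
  rw [Z_eq h hl, ← Real.exp_mul]
  congr 1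
  field_simp

theorem al_neg (h : Env P X ν a b) (v : V d) : al P X l (-v) = al P X l v := by
  unfold al
  rw [Z_comm h l 0 (-v), Z_eq_zero_sub h l (-v) 0, zero_sub, neg_neg]

theorem tendsto_al (h : Env P X ν a b) (hl : 0 < l) (x : F d) :
    Tendsto (fun n : ℕ => al P X l (fl n x) / n) atTop (𝓝 (nl P X l x)) :=
  tendsto_tc (subM_al h hl) x

theorem nl_le_al (h : Env P X ν a b) (hl : 0 < l) (v : V d) :
    nl P X l (rv v) ≤ al P X l v := by
  have h1 := mul_tc_le (subM_al h hl) v 1
  simpa [nl] using h1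

/-- (E1) -/
theorem Z_le_nl (h : Env P X ν a b) (hl : 0 < l) (v : V d) :
    Z P X l 0 v ≤ Real.exp (-(l * nl P X l (rv v))) := by
  rw [Z_eq h hl, Real.exp_le_exp, neg_le_neg_iff]
  exact mul_le_mul_of_nonneg_left (nl_le_al h hl v) hl.le

private theorem tc_mono {a b a' b' : ℝ} {m m' : V d → ℝ} (h : SubM a b m)
    (h' : SubM a' b' m') (hm : ∀ v, m v ≤ m' v) (x : F d) : tc m x ≤ tc m' x := by
  refine le_of_tendsto_of_tendsto (tendsto_tc h x) (tendsto_tc h' x)
    (Filter.Eventually.of_forall fun n => ?_)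
  exact div_le_div_of_nonneg_right (hm _) (Nat.cast_nonneg n)

theorem nl_le_uu (h : Env P X ν a b) (hl : 0 < l) (x : F d) : nl P X l x ≤ uu P X x :=
  tc_mono (subM_al h hl) (subM_mm h) (al_le_mm h hl) x

theorem nl_anti (h : Env P X ν a b) (hl : 0 < l) {l' : ℝ} (hll : l ≤ l') (x : F d) :
    nl P X l' x ≤ nl P X l x :=
  tc_mono (subM_al h (hl.trans_le hll)) (subM_al h hl) (al_anti h hl hll) x

private lemma n1_fl_neg {d : ℕ} (n : ℕ) (x : F d) : n1 (fl n (-x) - (-fl n x)) ≤ d := by
  have h1 : ∀ i : Fin d, |(((fl n (-x) - (-fl n x)) i : ℤ) : ℝ)| ≤ 1 := by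
    intro i
    have e : (((fl n (-x) - (-fl n x)) i : ℤ) : ℝ) = (⌊-((n : ℝ) * x i)⌋ : ℝ) + ⌊(n : ℝ) * x i⌋ := by
      simp [fl]
    rw [e, abs_le]
    have h2 := Int.floor_le (-((n : ℝ) * x i))
    have h3 := Int.floor_le ((n : ℝ) * x i)
    have h4 : ((-1 : ℤ) : ℝ) ≤ ((⌊-((n : ℝ) * x i)⌋ + ⌊(n : ℝ) * x i⌋ : ℤ) : ℝ) := by
      have h5 := Int.lt_floor_add_one (-((n : ℝ) * x i))
      have h6 := Int.lt_floor_add_one ((n : ℝ) * x i)
      have h7 : ((-2 : ℤ) : ℝ) < ((⌊-((n : ℝ) * x i)⌋ + ⌊(n : ℝ) * x i⌋ : ℤ) : ℝ) := by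
        push_cast
        linarith
      have h8 := Int.cast_lt.1 h7
      exact Int.cast_le.2 (by omega)
    push_cast at h4
    constructor
    · linarith
    · linarith
  unfold n1
  calc ∑ i, |(((fl n (-x) - (-fl n x)) i : ℤ) : ℝ)| ≤ ∑ _i : Fin d, (1 : ℝ) :=
        Finset.sum_le_sum fun i _ => h1 i
    _ = d := by simp

private theorem tc_neg' {m : V d → ℝ} (hs : SubM a b m) (hm : ∀ v, m (-v) = m v) (x : F d) :
    tc m (-x) = tc m x := by
  have h1 := ((tendsto_tc hs (-x)).sub (tendsto_tc hs x)).abs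
  have h2 : Filter.Tendsto (fun n : ℕ => |b| * d / (n : ℝ)) Filter.atTop (nhds 0) :=
    tendsto_const_div_atTop_nhds_zero_nat (|b| * d)
  have h3 : |tc m (-x) - tc m x| ≤ 0 := by
    refine le_of_tendsto_of_tendsto h1 h2 (Filter.Eventually.of_forall fun n => ?_)
    show |m (fl n (-x)) / n - m (fl n x) / n| ≤ |b| * d / n
    rw [← sub_div, abs_div, Nat.abs_cast]
    refine div_le_div_of_nonneg_right ?_ (Nat.cast_nonneg n)
    rw [← hm (fl n x)]
    refine (hs.lip _ _).trans ?_
    calc b * n1 (fl n (-x) - -fl n x) ≤ |b| * n1 (fl n (-x) - -fl n x) :=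
          mul_le_mul_of_nonneg_right (le_abs_self b) (n1_nonneg _)
      _ ≤ |b| * d := mul_le_mul_of_nonneg_left (n1_fl_neg n x) (abs_nonneg b)
  exact sub_eq_zero.1 (abs_eq_zero.1 (le_antisymm h3 (abs_nonneg _)))

private theorem tc_smul_abs {m : V d → ℝ} (hs : SubM a b m) (hm : ∀ v, m (-v) = m v) (t : ℝ)
    (x : F d) : tc m (t • x) = |t| * tc m x := by
  rcases le_total 0 t with ht | ht
  · rw [abs_of_nonneg ht]
    exact tc_smul hs t ht x
  · rw [abs_of_nonpos ht, ← tc_smul hs (-t) (by linarith) x, neg_smul, tc_neg' hs hm]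

theorem nl_neg (h : Env P X ν a b) (hl : 0 < l) (x : F d) : nl P X l (-x) = nl P X l x :=
  tc_neg' (subM_al h hl) (al_neg h) x

theorem nl_add_le (h : Env P X ν a b) (hl : 0 < l) (x y : F d) :
    nl P X l (x + y) ≤ nl P X l x + nl P X l y :=
  tc_add_le (subM_al h hl) x y

theorem nl_smul (h : Env P X ν a b) (hl : 0 < l) (t : ℝ) (x : F d) :
    nl P X l (t • x) = |t| * nl P X l x :=
  tc_smul_abs (subM_al h hl) (al_neg h) t x

theorem le_nl (h : Env P X ν a b) (hl : 0 < l) (x : F d) : a * nr x ≤ nl P X l x :=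
  le_tc (subM_al h hl) x

theorem nl_le (h : Env P X ν a b) (hl : 0 < l) (x : F d) : nl P X l x ≤ b * nr x :=
  tc_le (subM_al h hl) x

theorem uu_neg (h : Env P X ν a b) (x : F d) : uu P X (-x) = uu P X x := tc_neg h x

theorem uu_add_le (h : Env P X ν a b) (x y : F d) : uu P X (x + y) ≤ uu P X x + uu P X y :=
  tc_add_le (subM_mm h) x y

theorem uu_smul (h : Env P X ν a b) (t : ℝ) (x : F d) : uu P X (t • x) = |t| * uu P X x :=
  tc_smul_abs (subM_mm h) (mm_neg h) t x

theorem le_uu (h : Env P X ν a b) (x : F d) : a * nr x ≤ uu P X x := le_tc (subM_mm h) x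

theorem uu_le (h : Env P X ν a b) (x : F d) : uu P X x ≤ b * nr x := tc_le (subM_mm h) x

theorem uu_le_mm (h : Env P X ν a b) (v : V d) : uu P X (rv v) ≤ mm P X v := by
  have h1 := mul_tc_le (subM_mm h) v 1
  simpa [uu] using h1

end Pool.Agent.Helper51.NP
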