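import Pool.Agent.Helper40.NP.Tub
import Pool.Agent.Helper40.NP.Paley

/-!
# Block G2: the number of edges of a tube, Paley-Zygmund (proved by helper40)
-/

set_option autoImplicit false

namespace Pool.Agent.Helper51.NP

open MeasureTheory ProbabilityTheory Filter Pool.Agent.Helper79.GR Pool.Agent.Helper79.GQ

theorem finite_tub {d : ℕ} (v : F d) (h : F d →L[ℝ] ℝ) (W N : ℝ) : (tub v h W N).Finite :=
  Pool.Agent.Helper40.NP.finite_tub v h W N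

theorem card_tub {d : ℕ} (hd : 1 ≤ d) (v : F d) (h : F d →L[ℝ] ℝ) (hv : h v = 1) :
    ∃ K : ℝ, 1 ≤ K ∧ ∀ W N : ℝ, 1 ≤ W → 1 ≤ N →
      ((tub v h W N).ncard : ℝ) ≤ K * N * W ^ (d - 1) :=
  Pool.Agent.Helper40.NP.card_tub hd v h hv

/-- the second moment method -/
theorem paley {Ω : Type*} [MeasurableSpace Ω] {P : Measure Ω} [IsProbabilityMeasure P]
    {Y : Ω → ℝ} (hY : Measurable Y) (hb : ∃ C, ∀ ω, |Y ω| ≤ C) {m₁ m₂ : ℝ} (h0 : 0 < m₁)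
    (h1 : m₁ ≤ ∫ ω, Y ω ∂P) (h2 : ∫ ω, Y ω ^ 2 ∂P ≤ m₂) :
    m₁ ^ 2 / (4 * m₂) ≤ P.real {ω | m₁ / 2 ≤ Y ω} :=
  Pool.Agent.Helper40.NP.paley hY hb h0 h1 h2

end Pool.Agent.Helper51.NP
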