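import Pool.Agent.Helper51.NP.Defs

/-!
# Block F0: sums over a slab (owner: helper17)

`q` in the slab has distance at most `C nr v + tr q` from `(n / w) v`, `w = ⌈1 / l⌉₊`, `l w ≥ 1`.
-/

set_option autoImplicit false

namespace Pool.Agent.Helper51.NP

open MeasureTheory ProbabilityTheory Filter Pool.Agent.Helper79.GR Pool.Agent.Helper79.GQ

private theorem F0_int (δ : ℝ) (hδ : 0 < δ) (hδ1 : δ ≤ 1) :
    ∑' j : ℤ, ENNReal.ofReal (Real.exp (-(δ * |(j : ℝ)|))) ≤ ENNReal.ofReal (4 / δ) := by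
  set r : ℝ := Real.exp (-δ) with hr
  have hr0 : 0 < r := Real.exp_pos _
  have hr1 : r < 1 := by rw [hr, Real.exp_lt_one_iff]; linarith
  have h1 : HasSum (fun n : ℕ => Real.exp (-(δ * |((n : ℤ) : ℝ)|))) (1 - r)⁻¹ := by
    have h2 : (fun n : ℕ => Real.exp (-(δ * |((n : ℤ) : ℝ)|))) = fun n : ℕ => r ^ n := by
      funext n
      rw [hr, ← Real.exp_nat_mul]
      congr 1
      simp
      ring
    rw [h2]
    exact hasSum_geometric_of_lt_one hr0.le hr1
  have h3 : HasSum (fun n : ℕ => Real.exp (-(δ * |((-(n + 1 : ℤ) : ℤ) : ℝ)|)))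
      (r * (1 - r)⁻¹) := by
    have h2 : (fun n : ℕ => Real.exp (-(δ * |((-(n + 1 : ℤ) : ℤ) : ℝ)|)))
        = fun n : ℕ => r * r ^ n := by
      funext n
      rw [← pow_succ', hr, ← Real.exp_nat_mul]
      congr 1
      have : |((-(n + 1 : ℤ) : ℤ) : ℝ)| = (n : ℝ) + 1 := by
        push_cast
        rw [abs_of_nonpos (by have : (0 : ℝ) ≤ n := Nat.cast_nonneg n; linarith)]
        ring
      rw [this]
      push_cast
      ring
    rw [h2]
    exact (hasSum_geometric_of_lt_one hr0.le hr1).mul_left r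
  have h4 := HasSum.of_nat_of_neg_add_one (f := fun j : ℤ => Real.exp (-(δ * |(j : ℝ)|))) h1 h3
  rw [← ENNReal.ofReal_tsum_of_nonneg (fun _ => (Real.exp_pos _).le) h4.summable, h4.tsum_eq]
  refine ENNReal.ofReal_le_ofReal ?_
  have h5 : r ≤ 1 - δ / 2 := by
    have h6 : 1 + δ ≤ Real.exp δ := by
      have := Real.add_one_le_exp δ
      linarith
    have h7 : r * Real.exp δ = 1 := by
      rw [hr, ← Real.exp_add]
      simp
    have h8 : r * (1 + δ) ≤ 1 := by
      calc r * (1 + δ) ≤ r * Real.exp δ := mul_le_mul_of_nonneg_left h6 hr0.le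
        _ = 1 := h7
    by_contra hcon
    push Not at hcon
    nlinarith
  have h9 : (1 - r)⁻¹ ≤ 2 / δ := by
    rw [inv_le_comm₀ (by linarith) (by positivity)]
    rw [inv_div]
    linarith
  calc (1 - r)⁻¹ + r * (1 - r)⁻¹ ≤ 2 / δ + 1 * (2 / δ) := by
        refine add_le_add h9 (mul_le_mul hr1.le h9 ?_ zero_le_one)
        exact inv_nonneg.2 (by linarith)
    _ = 4 / δ := by ring

private theorem F0_one (δ : ℝ) (hδ : 0 < δ) (hδ1 : δ ≤ 1) (y : ℝ) :
    ∑' j : ℤ, ENNReal.ofReal (Real.exp (-(δ * |(j : ℝ) - y|))) ≤ ENNReal.ofReal (8 / δ) := by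
  have he : Real.exp (1 / 2) ≤ 2 := by
    have h1 : Real.exp (1 / 2) ^ 2 ≤ 2 ^ 2 := by
      rw [← Real.exp_nat_mul]
      have := Real.exp_one_lt_d9
      norm_num
      linarith
    exact le_of_sq_le_sq h1 (by norm_num)
  have h1 : ∀ j : ℤ, ENNReal.ofReal (Real.exp (-(δ * |(j : ℝ) - y|))) ≤
      ENNReal.ofReal 2 * ENNReal.ofReal (Real.exp (-(δ * |((j - round y : ℤ) : ℝ)|))) := by
    intro j
    rw [← ENNReal.ofReal_mul (by norm_num)]
    refine ENNReal.ofReal_le_ofReal ?_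
    have h2 : |((j - round y : ℤ) : ℝ)| ≤ |(j : ℝ) - y| + 1 / 2 := by
      have h3 := abs_sub_round y
      have h4 : ((j - round y : ℤ) : ℝ) = ((j : ℝ) - y) + (y - round y) := by push_cast; ring
      rw [h4]
      exact (abs_add_le _ _).trans (by linarith)
    have h5 : -(δ * |(j : ℝ) - y|) ≤ 1 / 2 + -(δ * |((j - round y : ℤ) : ℝ)|) := by
      nlinarith [mul_le_mul_of_nonneg_left h2 hδ.le]
    calc Real.exp (-(δ * |(j : ℝ) - y|))
        ≤ Real.exp (1 / 2 + -(δ * |((j - round y : ℤ) : ℝ)|)) := Real.exp_le_exp.2 h5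
      _ = Real.exp (1 / 2) * Real.exp (-(δ * |((j - round y : ℤ) : ℝ)|)) := Real.exp_add _ _
      _ ≤ 2 * Real.exp (-(δ * |((j - round y : ℤ) : ℝ)|)) :=
        mul_le_mul_of_nonneg_right he (Real.exp_pos _).le
  calc ∑' j : ℤ, ENNReal.ofReal (Real.exp (-(δ * |(j : ℝ) - y|)))
      ≤ ∑' j : ℤ, ENNReal.ofReal 2 *
          ENNReal.ofReal (Real.exp (-(δ * |((j - round y : ℤ) : ℝ)|))) := ENNReal.tsum_le_tsum h1
    _ = ENNReal.ofReal 2 * ∑' j : ℤ, ENNReal.ofReal (Real.exp (-(δ * |(j : ℝ)|))) := by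
        rw [ENNReal.tsum_mul_left]
        congr 1
        exact (Equiv.subRight (round y)).tsum_eq
          (fun j : ℤ => ENNReal.ofReal (Real.exp (-(δ * |(j : ℝ)|))))
    _ ≤ ENNReal.ofReal 2 * ENNReal.ofReal (4 / δ) := by
        gcongr
        exact F0_int δ hδ hδ1
    _ = ENNReal.ofReal (8 / δ) := by
        rw [← ENNReal.ofReal_mul (by norm_num)]
        congr 1
        ring

/-- sum over all lattice points -/
theorem sum_exp_nr (d : ℕ) (δ : ℝ) (hδ : 0 < δ) (hδ1 : δ ≤ 1) (y : F d) :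
    ∑' q : V d, ENNReal.ofReal (Real.exp (-(δ * nr (rv q - y)))) ≤
      ENNReal.ofReal ((8 / δ) ^ d) := by
  induction d with
  | zero =>
    rw [tsum_fintype]
    simp [nr]
  | succ d ih =>
    rw [← (Fin.consEquiv fun _ : Fin (d + 1) => ℤ).tsum_eq]
    have h0 := ENNReal.tsum_prod (f := fun (j : ℤ) (k : V d) =>
      ENNReal.ofReal (Real.exp (-(δ * nr (rv
        ((Fin.consEquiv fun _ : Fin (d + 1) => ℤ) (j, k)) - y)))))
    refine le_trans (le_of_eq h0) ?_
    have h1 : ∀ (j : ℤ) (k : V d), ENNReal.ofReal (Real.exp (-(δ * nr (rv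
        ((Fin.consEquiv fun _ : Fin (d + 1) => ℤ) (j, k)) - y)))) =
        ENNReal.ofReal (Real.exp (-(δ * |(j : ℝ) - y 0|))) *
          ENNReal.ofReal (Real.exp (-(δ * nr (rv k - fun i => y (Fin.succ i))))) := by
      intro j k
      rw [← ENNReal.ofReal_mul (Real.exp_pos _).le, ← Real.exp_add]
      congr 2
      unfold nr
      rw [Fin.sum_univ_succ]
      simp only [Fin.consEquiv, Equiv.coe_fn_mk, rv, Pi.sub_apply, Fin.cons_zero, Fin.cons_succ]
      ring
    calc ∑' (j : ℤ) (k : V d), ENNReal.ofReal (Real.exp (-(δ * nr (rv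
          ((Fin.consEquiv fun _ : Fin (d + 1) => ℤ) (j, k)) - y))))
        = ∑' (j : ℤ), ENNReal.ofReal (Real.exp (-(δ * |(j : ℝ) - y 0|))) *
          ∑' k : V d, ENNReal.ofReal (Real.exp (-(δ * nr (rv k - fun i => y (Fin.succ i))))) := by
          refine tsum_congr fun j => ?_
          rw [← ENNReal.tsum_mul_left]
          exact tsum_congr fun k => h1 j k
      _ ≤ ∑' (j : ℤ), ENNReal.ofReal (Real.exp (-(δ * |(j : ℝ) - y 0|))) *
          ENNReal.ofReal ((8 / δ) ^ d) := by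
          refine ENNReal.tsum_le_tsum fun j => ?_
          gcongr
          exact ih _
      _ = (∑' (j : ℤ), ENNReal.ofReal (Real.exp (-(δ * |(j : ℝ) - y 0|)))) *
          ENNReal.ofReal ((8 / δ) ^ d) := ENNReal.tsum_mul_right
      _ ≤ ENNReal.ofReal (8 / δ) * ENNReal.ofReal ((8 / δ) ^ d) := by
          gcongr
          exact F0_one δ hδ hδ1 _
      _ = ENNReal.ofReal ((8 / δ) ^ (d + 1)) := by
          rw [← ENNReal.ofReal_mul (by positivity), pow_succ']

theorem sum_slab {d : ℕ} (v : F d) (h : F d →L[ℝ] ℝ) (hv : h v = 1) (C : ℝ) (hC : 0 ≤ C) :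
    ∃ K : ℝ, 1 ≤ K ∧ ∀ l δ n : ℝ, 0 < l → l ≤ 1 → 0 < δ → δ ≤ 1 →
      ∑' q : {q : V d // |h (rv (⌈1 / l⌉₊ • q)) - n| ≤ C / l},
        ENNReal.ofReal (Real.exp (-(l * (δ * tr v h (rv (⌈1 / l⌉₊ • q.1)))))) ≤
        ENNReal.ofReal (K / δ ^ d) := by
  have hnv : 0 ≤ nr v := Finset.sum_nonneg fun _ _ => abs_nonneg _
  refine ⟨8 ^ d * Real.exp (C * nr v), ?_, ?_⟩
  · have h1 : (1 : ℝ) ≤ 8 ^ d := one_le_pow₀ (by norm_num)
    have h2 : 1 ≤ Real.exp (C * nr v) := Real.one_le_exp (by positivity)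
    nlinarith
  intro l δ n hl hl1 hδ hδ1
  set W : ℕ := ⌈1 / l⌉₊ with hW
  have hW0 : 1 / l ≤ (W : ℝ) := Nat.le_ceil _
  have hlW : 1 ≤ l * W := by
    have := mul_le_mul_of_nonneg_left hW0 hl.le
    rwa [mul_one_div_cancel hl.ne'] at this
  have hWpos : (0 : ℝ) < W := lt_of_lt_of_le (by positivity) hW0
  set y : F d := (n / (W : ℝ)) • v with hy
  have hrv : ∀ q : V d, rv (W • q) = (W : ℝ) • rv q := by
    intro q
    funext i
    simp [rv]
  have hnr : ∀ (t : ℝ) (x : F d), 0 ≤ t → nr (t • x) = t * nr x := by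
    intro t x ht
    unfold nr
    rw [Finset.mul_sum]
    refine Finset.sum_congr rfl fun i _ => ?_
    rw [Pi.smul_apply, smul_eq_mul, abs_mul, abs_of_nonneg ht]
  have hadd : ∀ x z : F d, nr (x + z) ≤ nr x + nr z := by
    intro x z
    unfold nr
    rw [← Finset.sum_add_distrib]
    exact Finset.sum_le_sum fun i _ => abs_add_le _ _
  have hnrabs : ∀ (t : ℝ) (x : F d), nr (t • x) = |t| * nr x := by
    intro t x
    unfold nr
    rw [Finset.mul_sum]
    refine Finset.sum_congr rfl fun i _ => ?_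
    rw [Pi.smul_apply, smul_eq_mul, abs_mul]
  have key : ∀ q : {q : V d // |h (rv (W • q)) - n| ≤ C / l},
      ENNReal.ofReal (Real.exp (-(l * (δ * tr v h (rv (W • q.1)))))) ≤
      ENNReal.ofReal (Real.exp (C * nr v)) *
        ENNReal.ofReal (Real.exp (-(δ * nr (rv q.1 - y)))) := by
    intro q
    rw [← ENNReal.ofReal_mul (Real.exp_pos _).le, ← Real.exp_add]
    refine ENNReal.ofReal_le_ofReal (Real.exp_le_exp.2 ?_)
    set x : F d := rv (W • q.1) with hx
    have h1 : nr (x - n • v) ≤ tr v h x + C / l * nr v := by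
      have h2 : x - n • v = (x - h x • v) + (h x - n) • v := by
        rw [sub_smul]
        abel
      rw [h2]
      refine (hadd _ _).trans ?_
      rw [hnrabs (h x - n) v]
      have h3 : |h x - n| * nr v ≤ C / l * nr v := mul_le_mul_of_nonneg_right q.2 hnv
      unfold tr
      linarith
    have h4 : nr (x - n • v) = W * nr (rv q.1 - y) := by
      rw [← hnr (W : ℝ) _ hWpos.le]
      congr 1
      rw [hx, hrv, smul_sub, hy, smul_smul, mul_div_cancel₀ _ hWpos.ne']
    rw [h4] at h1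
    have h5 : 0 ≤ nr (rv q.1 - y) := Finset.sum_nonneg fun _ _ => abs_nonneg _
    have h6 : nr (rv q.1 - y) ≤ l * (W * nr (rv q.1 - y)) := by
      have := mul_le_mul_of_nonneg_right hlW h5
      linarith
    have h7 : l * (W * nr (rv q.1 - y)) ≤ l * tr v h x + C * nr v := by
      have h8 := mul_le_mul_of_nonneg_left h1 hl.le
      have h9 : l * (tr v h x + C / l * nr v) = l * tr v h x + C * nr v := by
        field_simp
      linarith
    have h10 : nr (rv q.1 - y) ≤ l * tr v h x + C * nr v := h6.trans h7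
    have h11 := mul_le_mul_of_nonneg_left h10 hδ.le
    have h12 : δ * (C * nr v) ≤ C * nr v := by
      have : 0 ≤ C * nr v := by positivity
      nlinarith
    nlinarith
  calc ∑' q : {q : V d // |h (rv (W • q)) - n| ≤ C / l},
        ENNReal.ofReal (Real.exp (-(l * (δ * tr v h (rv (W • q.1))))))
      ≤ ∑' q : {q : V d // |h (rv (W • q)) - n| ≤ C / l}, ENNReal.ofReal (Real.exp (C * nr v)) *
        ENNReal.ofReal (Real.exp (-(δ * nr (rv q.1 - y)))) := ENNReal.tsum_le_tsum key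
    _ = ENNReal.ofReal (Real.exp (C * nr v)) * ∑' q : {q : V d // |h (rv (W • q)) - n| ≤ C / l},
        ENNReal.ofReal (Real.exp (-(δ * nr (rv q.1 - y)))) := ENNReal.tsum_mul_left
    _ ≤ ENNReal.ofReal (Real.exp (C * nr v)) * ∑' q : V d,
        ENNReal.ofReal (Real.exp (-(δ * nr (rv q - y)))) := by
        gcongr
        exact ENNReal.tsum_comp_le_tsum_of_injective Subtype.val_injective
          (fun q : V d => ENNReal.ofReal (Real.exp (-(δ * nr (rv q - y)))))
    _ ≤ ENNReal.ofReal (Real.exp (C * nr v)) * ENNReal.ofReal ((8 / δ) ^ d) := by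
        gcongr
        exact sum_exp_nr d δ hδ hδ1 y
    _ = ENNReal.ofReal (8 ^ d * Real.exp (C * nr v) / δ ^ d) := by
        rw [← ENNReal.ofReal_mul (Real.exp_pos _).le]
        congr 1
        rw [div_pow]
        ring

end Pool.Agent.Helper51.NP
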