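import Pool.Agent.Helper51.NP.B
import Pool.Agent.Helper19.PG.Corner

/-!
# Block D: vertices of the norm, the tilts and `Dl` (owner: helper19)
-/

set_option autoImplicit false

namespace Pool.Agent.Helper51.NP

open MeasureTheory ProbabilityTheory Filter Pool.Agent.Helper79.GR Pool.Agent.Helper79.GQ

section geo

variable {d : ℕ} {μ : F d → ℝ} {v : F d} {h : F d →L[ℝ] ℝ} {s : ℝ}

/-- if the norm is the maximum of finitely many linear functionals, there is a vertex with the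
properties used in the proof -/
theorem exists_crn {a m : ℝ} (hd : 2 ≤ d) (hμ : Nrm a m μ)
    (G : Finset (F d →L[ℝ] ℝ)) (hle : ∀ ρ ∈ G, ∀ x, ρ x ≤ μ x)
    (hcov : ∀ x, ∃ ρ ∈ G, ρ x = μ x) :
    ∃ (v : F d) (h : F d →L[ℝ] ℝ) (s ε : ℝ) (K : ℕ) (ρ : Fin K → F d →L[ℝ] ℝ)
      (v' : Fin K → F d) (h' : Fin K → F d →L[ℝ] ℝ) (s' : Fin K → ℝ),
      Crn μ v h s ε K ρ v' h' s' :=
  Pool.Agent.Helper19.PG.exists_crn hd ⟨hμ.apos, hμ.add, hμ.smul, hμ.lo, hμ.hi⟩ hle hcov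

theorem tr_nonneg (x : F d) : 0 ≤ tr v h x := Pool.Agent.Helper19.PG.tr_nonneg v h x

theorem tr_add_le (x y : F d) : tr v h (x + y) ≤ tr v h x + tr v h y :=
  Pool.Agent.Helper19.PG.tr_add v h x y

theorem tr_smul (t : ℝ) (x : F d) : tr v h (t • x) = |t| * tr v h x :=
  Pool.Agent.Helper19.PG.tr_smul v h t x

theorem nr_le_tr (x : F d) : nr x ≤ |h x| * nr v + tr v h x :=
  Pool.Agent.Helper19.PG.nr_le_tr v h x

theorem tr_le_nr (x : F d) : tr v h x ≤ (1 + ‖h‖ * nr v) * nr x := by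
  have h1 : tr v h x ≤ nr x + |h x| * nr v := by
    unfold tr
    have e : x - h x • v = x + (-h x) • v := by rw [neg_smul, sub_eq_add_neg]
    rw [e]
    refine (Pool.Agent.Helper19.PG.nr_add _ _).trans ?_
    rw [Pool.Agent.Helper19.PG.nr_smul, abs_neg]
  have h2 : |h x| ≤ ‖h‖ * nr x := by
    have h3 := h.le_opNorm x
    rw [Real.norm_eq_abs] at h3
    refine h3.trans (mul_le_mul_of_nonneg_left ?_ (norm_nonneg h))
    rw [pi_norm_le_iff_of_nonneg (Pool.Agent.Helper19.PG.nr_nonneg x)]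
    intro i
    rw [Real.norm_eq_abs]
    exact Finset.single_le_sum (f := fun i => |x i|) (fun i _ => abs_nonneg (x i))
      (Finset.mem_univ i)
  have h3 := mul_le_mul_of_nonneg_right h2 (Pool.Agent.Helper19.PG.nr_nonneg v)
  calc tr v h x ≤ nr x + |h x| * nr v := h1
    _ ≤ nr x + ‖h‖ * nr x * nr v := by linarith
    _ = (1 + ‖h‖ * nr v) * nr x := by ring

/-- the tilted height of `x` -/
theorem gt_apply (η : Fin d → ℝ) (x : F d) :
    gt v h η x = h x + ∑ j, η j * (x j - h x * v j) :=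
  Pool.Agent.Helper19.PG.gt_apply v h η x

theorem gt_v (hv : h v = 1) (η : Fin d → ℝ) : gt v h η v = 1 :=
  Pool.Agent.Helper19.PG.gt_v hv η

theorem abs_gt_sub_le {t : ℝ} (η : Fin d → ℝ) (hη : ∀ j, |η j| ≤ t) (x : F d) :
    |gt v h η x - h x| ≤ t * tr v h x := by
  rw [gt_apply, add_sub_cancel_left]
  unfold tr nr
  rw [Finset.mul_sum]
  refine (Finset.abs_sum_le_sum_abs _ _).trans (Finset.sum_le_sum fun j _ => ?_)
  rw [abs_mul]
  exact mul_le_mul_of_nonneg_right (hη j) (abs_nonneg _)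

/-- small tilts are below the norm -/
theorem gt_le (hV : Vtx μ v h s) (η : Fin d → ℝ) (hη : ∀ j, |η j| ≤ s) (x : F d) :
    gt v h η x ≤ μ x := by
  have h1 := (le_abs_self _).trans (abs_gt_sub_le (v := v) (h := h) η hη x)
  have h2 := hV.gap x
  linarith

end geo

variable {Ω : Type*} [MeasurableSpace Ω] {P : Measure Ω} {d : ℕ} {X : Edge d → Ω → ℝ}
  {ν : Measure ℝ} {a b l s : ℝ} {v : F d} {h : F d →L[ℝ] ℝ}

private theorem aux_b (hE : Env P X ν a b) (hV : Vtx (uu P X) v h s) : 0 < b := by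
  have h1 := uu_le hE v
  rw [hV.one] at h1
  have h2 := Pool.Agent.Helper19.PG.nr_nonneg v
  by_contra hb
  push Not at hb
  nlinarith

private theorem aux_hk (hE : Env P X ν a b) (hl : 0 < l) (hV : Vtx (uu P X) v h s) :
    0 ≤ hk a b b * l := by
  have h1 := aux_b hE hV
  have h2 := hE.apos
  unfold hk
  positivity

private theorem aux_d (hV : Vtx (uu P X) v h s) : 0 < d := by
  rcases Nat.eq_zero_or_pos d with hd | hd
  · subst hd
    have h1 := hV.hv
    rw [Subsingleton.elim v 0, map_zero] at h1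
    exact absurd h1 zero_ne_one
  · exact hd

private theorem aux_n (hE : Env P X ν a b) (hl : 0 < l) (x : F d) :
    uu P X x - hk a b b * l * nr x ≤ nl P X l x := by
  have h1 := uu_le_nl hE hl x
  linarith

private theorem aux_Nr0 (hE : Env P X ν a b) (hl : 0 < l) :
    Pool.Agent.Helper19.PG.Nr0 a b (nl P X l : F d → ℝ) :=
  Pool.Agent.Helper19.PG.nr0_tc (subM_al hE hl)

private theorem aux_norm (hV : Vtx (uu P X) v h s) {η : Fin d → ℝ} (hη : ∀ j, |η j| ≤ s / 2) :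
    ‖η‖ ≤ s / 2 := by
  rw [pi_norm_le_iff_of_nonneg (half_pos hV.spos).le]
  intro i
  rw [Real.norm_eq_abs]
  exact hη i

private theorem aux_eta (hV : Vtx (uu P X) v h s) (hls : 2 * hk a b b * l ≤ s / 2)
    {η : Fin d → ℝ} (hη : ∀ j, |η j| ≤ s / 2) : ‖η‖ + hk a b b * l ≤ s := by
  have h1 := aux_norm hV hη
  have h2 := hV.spos
  linarith

/-- the supremum in the definition of `Dl` is over a nonempty set bounded from above, and for all
`x` of positive height -/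
theorem le_Dl (hE : Env P X ν a b) (hl : 0 < l) (hV : Vtx (uu P X) v h s)
    (hls : 2 * hk a b b * l ≤ s / 2) (η : Fin d → ℝ) (hη : ∀ j, |η j| ≤ s / 2) (x : F d)
    (hx : 0 ≤ h x) : gt v h η x - nl P X l x ≤ h x * Dl P X l v h η := by
  have h1 := Pool.Agent.Helper19.PG.gt_sub_le_DG (aux_Nr0 hE hl) hV (aux_hk hE hl hV)
    (aux_n hE hl) (nl_le_uu hE hl) (aux_eta hV hls hη) x
  rwa [max_eq_left hx] at h1

theorem Dl_nonneg (hE : Env P X ν a b) (hl : 0 < l) (hV : Vtx (uu P X) v h s)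
    (hls : 2 * hk a b b * l ≤ s / 2) (η : Fin d → ℝ) (hη : ∀ j, |η j| ≤ s / 2) :
    0 ≤ Dl P X l v h η :=
  Pool.Agent.Helper19.PG.DG_nonneg hV (aux_hk hE hl hV) (aux_n hE hl) (nl_le_uu hE hl)
    (aux_eta hV hls hη)

theorem Dl_le (hE : Env P X ν a b) (hl : 0 < l) (hV : Vtx (uu P X) v h s)
    (hls : 2 * hk a b b * l ≤ s / 2) (η : Fin d → ℝ) (hη : ∀ j, |η j| ≤ s / 2) :
    Dl P X l v h η ≤ hk a b b * nr v * l := by
  have h1 := Pool.Agent.Helper19.PG.DG_le hV (aux_hk hE hl hV) (aux_n hE hl)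
    (aux_eta hV hls hη)
  calc Dl P X l v h η ≤ hk a b b * l * nr v := h1
    _ = _ := by ring

/-- for all `x`, also of negative height -/
theorem gt_sub_nl_le (hE : Env P X ν a b) (hl : 0 < l) (hV : Vtx (uu P X) v h s)
    (hls : 2 * hk a b b * l ≤ s / 2) (η : Fin d → ℝ) (hη : ∀ j, |η j| ≤ s / 2) (x : F d) :
    gt v h η x - nl P X l x ≤ Dl P X l v h η * max (h x) 0 := by
  have h1 := Pool.Agent.Helper19.PG.gt_sub_le_DG (aux_Nr0 hE hl) hV (aux_hk hE hl hV)
    (aux_n hE hl) (nl_le_uu hE hl) (aux_eta hV hls hη) x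
  rw [mul_comm]
  exact h1

theorem exists_Dl (hE : Env P X ν a b) (hl : 0 < l) (hV : Vtx (uu P X) v h s)
    (hls : 2 * hk a b b * l ≤ s / 2) (η : Fin d → ℝ) (hη : ∀ j, |η j| ≤ s / 2) {D' : ℝ}
    (hD : D' < Dl P X l v h η) : ∃ x, h x = 1 ∧ D' < gt v h η x - nl P X l x := by
  obtain ⟨t, ⟨x, hx, rfl⟩, h2⟩ := exists_lt_of_lt_csSup
    (Pool.Agent.Helper19.PG.DG_nonempty hV.hv η) hD
  exact ⟨x, hx, h2⟩

/-- (E2): if the tilts near `η` cost at most `E`, the tilt `η` decays transversally -/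
theorem E2 (hE : Env P X ν a b) (hl : 0 < l) (hV : Vtx (uu P X) v h s)
    (hls : 2 * hk a b b * l ≤ s / 2) {δ E : ℝ} (hδ : 0 < δ) (hE0 : 0 ≤ E) (η : Fin d → ℝ)
    (hη : ∀ j, |η j| + δ ≤ s / 2)
    (hD : ∀ e : Fin d → ℝ, (∀ j, |e j| ≤ δ) → Dl P X l v h (η + e) ≤ E) (x : F d) :
    gt v h η x - nl P X l x ≤ E * max (h x) 0 - δ * tr v h x := by
  have hd := aux_d hV
  have h0 : 0 ≤ s / 2 - δ := by
    have h1 := hη ⟨0, hd⟩
    have h2 := abs_nonneg (η ⟨0, hd⟩)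
    linarith
  have h1 : ‖η‖ ≤ s / 2 - δ := by
    rw [pi_norm_le_iff_of_nonneg h0]
    intro i
    rw [Real.norm_eq_abs]
    linarith [hη i]
  have h2 := hV.spos
  have h3 := Pool.Agent.Helper19.PG.E2 (D := E) (aux_Nr0 hE hl) hV (aux_hk hE hl hV)
    (aux_n hE hl) (nl_le_uu hE hl) (η := η) hδ.le (by linarith) (fun η' hη' => by
      have h4 := hD (η' - η) fun j => by
        rw [← Real.norm_eq_abs]
        exact (norm_le_pi_norm (η' - η) j).trans hη'
      rwa [add_sub_cancel] at h4) x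
  rwa [mul_comm (max (h x) 0)] at h3

end Pool.Agent.Helper51.NP
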