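import Pool.Agent.Helper79.GR.RN
import Pool.Agent.Helper79.GQ.LH
import Pool.Agent.Helper79.GQ.LD

/-!
# Project NP (MP_13b103_pr): the limit shape is not a polytope. Definitions

Everything of the projects GR and GQ (`Pool/Agent/Helper79/GR`, `Pool/Agent/Helper79/GQ`) is available:
`V d`, `F d`, `n1`, `nr`, `rv`, `St d`, `sv`, `Edge d`, `ed`, `pos`, `cost`, `eds`, `T c x y`, `Bd a b c`,
`fl n x`, `tc`, `SubM`, `Env P X ν a b`, `cf X ω`, `mm P X v`. The paper proof is note 3123 of the team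
database.
-/

set_option autoImplicit false

namespace Pool.Agent.Helper51.NP

open MeasureTheory ProbabilityTheory Filter Pool.Agent.Helper79.GR Pool.Agent.Helper79.GQ

open Classical in
/-- the weights `c` on the edges of `S`, and the constant `B` off `S` -/
noncomputable def cut {d : ℕ} (S : Set (Edge d)) (B : ℝ) (c : Edge d → ℝ) : Edge d → ℝ :=
  S.piecewise c fun _ => B

section

variable {Ω : Type*} [MeasurableSpace Ω] {d : ℕ}

/-- the expected passage time for the weights cut off outside of `S` -/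
noncomputable def mc (P : Measure Ω) (X : Edge d → Ω → ℝ) (S : Set (Edge d)) (B : ℝ)
    (x y : V d) : ℝ := ∫ ω, T (cut S B (cf X ω)) x y ∂P

/-- `E exp (- l T(x, y))` for the weights cut off outside of `S` -/
noncomputable def Zc (P : Measure Ω) (X : Edge d → Ω → ℝ) (S : Set (Edge d)) (B l : ℝ)
    (x y : V d) : ℝ := ∫ ω, Real.exp (-(l * T (cut S B (cf X ω)) x y)) ∂P

/-- `E exp (- l T(x, y))` -/
noncomputable def Z (P : Measure Ω) (X : Edge d → Ω → ℝ) (l : ℝ) (x y : V d) : ℝ :=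
  ∫ ω, Real.exp (-(l * T (cf X ω) x y)) ∂P

/-- the annealed passage time `- (1/l) log E exp (- l T(0, v))` -/
noncomputable def al (P : Measure Ω) (X : Edge d → Ω → ℝ) (l : ℝ) (v : V d) : ℝ :=
  -Real.log (Z P X l 0 v) / l

/-- the annealed norm -/
noncomputable def nl (P : Measure Ω) (X : Edge d → Ω → ℝ) (l : ℝ) (x : F d) : ℝ :=
  tc (al P X l) x

/-- the time constant (the limit norm) -/
noncomputable def uu (P : Measure Ω) (X : Edge d → Ω → ℝ) (x : F d) : ℝ := tc (mm P X) x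

end

/-- the constant of the lower tail inequality -/
noncomputable def hk (a b B : ℝ) : ℝ := (b - a) ^ 2 * B / (2 * a)

/-- the transversal size of `x` with respect to the direction `v` and the height `h` -/
noncomputable def tr {d : ℕ} (v : F d) (h : F d →L[ℝ] ℝ) (x : F d) : ℝ := nr (x - h x • v)

/-- `v` is a vertex direction of the norm `μ`, `h` is the height, `s` the strength of the corner -/
structure Vtx {d : ℕ} (μ : F d → ℝ) (v : F d) (h : F d →L[ℝ] ℝ) (s : ℝ) : Prop where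
  hv : h v = 1
  one : μ v = 1
  spos : 0 < s
  gap : ∀ x, h x + s * tr v h x ≤ μ x

/-- a vertex `v`; near `v` the norm is one of the finitely many linear functionals `ρ i`, and the
face of `ρ i` contains a vertex direction `v' i` which is not a multiple of `v` -/
structure Crn {d : ℕ} (μ : F d → ℝ) (v : F d) (h : F d →L[ℝ] ℝ) (s ε : ℝ) (K : ℕ)
    (ρ : Fin K → F d →L[ℝ] ℝ) (v' : Fin K → F d) (h' : Fin K → F d →L[ℝ] ℝ) (s' : Fin K → ℝ) :
    Prop where
  vtx : Vtx μ v h s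
  epos : 0 < ε
  cov : ∀ x, tr v h x ≤ ε * h x → ∃ i, ρ i x = μ x
  le : ∀ i x, ρ i x ≤ μ x
  vtx' : ∀ i, Vtx μ (v' i) (h' i) (s' i)
  on : ∀ i, ρ i (v' i) = 1
  off : ∀ i, 0 < tr v h (v' i)

/-- the edges in the tube of width `W` around the line `ℝ v`, in the ball of radius `N` -/
def tub {d : ℕ} (v : F d) (h : F d →L[ℝ] ℝ) (W N : ℝ) : Set (Edge d) :=
  {e | ∀ x ∈ e.1, tr v h (rv x) ≤ W ∧ n1 x ≤ N}

/-- the tilted height -/
noncomputable def gt {d : ℕ} (v : F d) (h : F d →L[ℝ] ℝ) (η : Fin d → ℝ) : F d →L[ℝ] ℝ :=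
  (1 - ∑ j, η j * v j) • h + ∑ j, η j • (ContinuousLinearMap.proj j : F d →L[ℝ] ℝ)

section

variable {Ω : Type*} [MeasurableSpace Ω] {d : ℕ}

/-- how much the tilted height has to be lowered to be below the annealed norm -/
noncomputable def Dl (P : Measure Ω) (X : Edge d → Ω → ℝ) (l : ℝ) (v : F d) (h : F d →L[ℝ] ℝ)
    (η : Fin d → ℝ) : ℝ := sSup {t | ∃ x, h x = 1 ∧ t = gt v h η x - nl P X l x}

/-- a good pair (inverse temperature `l`, tilt `g`) at the logarithmic scale `L` (`l` between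
`4 ^ (-L)` and `2 ^ (-L)`) -/
structure Pack (P : Measure Ω) (X : Edge d → Ω → ℝ) (v : F d) (h : F d →L[ℝ] ℝ) (C : ℝ) (L : ℕ)
    (l D E : ℝ) (g : F d →L[ℝ] ℝ) : Prop where
  lpos : 0 < l
  lup : l ≤ (1 / 2) ^ L
  llo : (1 / 4) ^ L ≤ l
  D0 : 0 ≤ D
  DE : E = D + l ^ (2 * d + 2)
  EC : E ≤ C * l
  gle : ∀ x, g x ≤ uu P X x
  gh : ∀ x, |g x - h x| ≤ C * tr v h x
  z1 : ∀ q : V d, Z P X l 0 q * Real.exp (l * g (rv q)) ≤
    Real.exp (l * (C * E * max (h (rv q)) 0 - tr v h (rv q) / (C * L)))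
  z2 : ∀ q : V d, Z P X (2 * l) 0 q * Real.exp (2 * l * g (rv q)) ≤
    Real.exp (2 * l * (C * E * max (h (rv q)) 0 - tr v h (rv q) / (C * L)))
  low : ∀ n : ℝ, C / l ≤ n → ENNReal.ofReal (Real.exp (l * n * D)) ≤ ENNReal.ofReal C *
    ∑' q : {q : V d // |h (rv (⌈1 / l⌉₊ • q)) - n| ≤ C / l},
      ENNReal.ofReal (Z P X l 0 (⌈1 / l⌉₊ • q.1) * Real.exp (l * g (rv (⌈1 / l⌉₊ • q.1))))

end

end Pool.Agent.Helper51.NP
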