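import Pool.Agent.Helper51.NP.A
import Pool.Agent.Helper49.PG.B

/-!
# Block B: the lower tail inequality (Herbst) and its corollaries (owners: helper94 generic part,
helper33 `Upd`, helper49 assembly)

`hk a b B = (b - a) ^ 2 * B / (2 * a)`; in `herbst` the number of edges of a minimal path is at most
`B / a * n1 (y - x)`, each contributes at most `(b - a) ^ 2`, and `(l ^ 2 / 2)` of the sum is
`hk a b B * l ^ 2 * n1 (y - x)`.
-/

set_option autoImplicit false

namespace Pool.Agent.Helper51.NP

open MeasureTheory ProbabilityTheory Filter Pool.Agent.Helper79.GR Pool.Agent.Helper79.GQ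

variable {Ω : Type*} [MeasurableSpace Ω] {P : Measure Ω} {d : ℕ} {X : Edge d → Ω → ℝ}
  {ν : Measure ℝ} {a b B l : ℝ}

theorem herbst (h : Env P X ν a b) (hB : b ≤ B) (S : Set (Edge d)) (hl : 0 ≤ l) (x y : V d) :
    Zc P X S B l x y ≤
      Real.exp (-(l * mc P X S B x y) + hk a b B * l ^ 2 * n1 (y - x)) := by
  exact Pool.Agent.Helper33.NP.herbst h hB S hl x y

theorem herbst_Z (h : Env P X ν a b) (hl : 0 ≤ l) (v : V d) :
    Z P X l 0 v ≤ Real.exp (-(l * mm P X v) + hk a b b * l ^ 2 * n1 v) := by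
  exact Pool.Agent.Helper49.PG.herbst_Z h hl v

theorem uu_le_nl (h : Env P X ν a b) (hl : 0 < l) (x : F d) :
    uu P X x ≤ nl P X l x + hk a b b * l * nr x := by
  exact Pool.Agent.Helper49.PG.uu_le_nl h hl x

/-- if the passage time is below `z` with probability at least `p`, its mean is not much larger -/
theorem mc_le_of_prob (h : Env P X ν a b) (hB : b ≤ B) (S : Set (Edge d)) (x y : V d) (z p : ℝ)
    (hp : 0 < p) (hpz : p ≤ P.real {ω | T (cut S B (cf X ω)) x y ≤ z}) :
    mc P X S B x y ≤ z + √(4 * hk a b B * n1 (y - x) * Real.log (1 / p)) := by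
  exact Pool.Agent.Helper49.PG.mc_le_of_prob h hB S x y z p hp hpz

theorem mm_le_of_Z (h : Env P X ν a b) (hl : 0 < l) (v : V d) (z c : ℝ) (hc : 0 < c)
    (hz : c ≤ Z P X l 0 v * Real.exp (l * z)) :
    mm P X v ≤ z + hk a b b * l * n1 v + Real.log (1 / c) / l := by
  exact Pool.Agent.Helper49.PG.mm_le_of_Z h hl v z c hc hz

/-- the positive part of the fluctuation -/
theorem pos_part (h : Env P X ν a b) (x y : V d) :
    ∫ ω, max (T (cf X ω) x y - mm P X (y - x)) 0 ∂P ≤
      4 * √((hk a b b + 1) * n1 (y - x)) := by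
  exact Pool.Agent.Helper49.PG.pos_part h x y

end Pool.Agent.Helper51.NP
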