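import Pool.Agent.Helper51.NP.A
import Pool.Agent.Helper45.PG.Slab

/-!
# Block C1: a path through a slab (helper63)

`z₁` is the first vertex with `t ≤ h`, `z₂` the last vertex with `h` in `[t, t + c₀)`.
The proof is the slab decomposition of `Pool/Agent/Helper45/PG/Slab.lean`.
-/

set_option autoImplicit false

namespace Pool.Agent.Helper51.NP

open MeasureTheory ProbabilityTheory Filter Pool.Agent.Helper79.GR Pool.Agent.Helper79.GQ

variable {d : ℕ} {a b : ℝ} {c : Edge d → ℝ}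

/-- the edges which meet the half space below the level `t` -/
def lo (h : F d →L[ℝ] ℝ) (t : ℝ) : Set (Edge d) := {e | ∃ y ∈ e.1, h (rv y) < t}

/-- the edges which meet the half space above the level `t` -/
def hi (h : F d →L[ℝ] ℝ) (t : ℝ) : Set (Edge d) := {e | ∃ y ∈ e.1, t ≤ h (rv y)}

theorem step_height (h : F d →L[ℝ] ℝ) {c₀ : ℝ} (hc₀ : ∀ s : St d, |h (rv (sv s))| < c₀)
    (x : V d) (s : St d) : |h (rv (x + sv s)) - h (rv x)| < c₀ := by
  rw [rv_add, map_add, add_sub_cancel_left]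
  exact hc₀ s

theorem cut_eq_repl (S : Set (Edge d)) (B : ℝ) (c : Edge d → ℝ) :
    cut S B c = Helper45.PG.repl (fun e => e ∈ S) B c := by
  classical
  funext e
  unfold cut Helper45.PG.repl
  by_cases he : e ∈ S
  · rw [Set.piecewise_eq_of_mem _ _ _ he, if_pos he]
  · rw [Set.piecewise_eq_of_notMem _ _ _ he, if_neg he]

theorem lo_disj_hi (h : F d →L[ℝ] ℝ) {c₀ : ℝ} (hc₀ : ∀ s : St d, |h (rv (sv s))| < c₀)
    (t : ℝ) : Disjoint (lo h t) (hi h (t + c₀)) := by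
  rw [Set.disjoint_left]
  intro e h1 h2
  exact Helper45.PG.low_high (F := fun x => h (rv x)) (step_height h hc₀) h1 h2

/-- (in dimension `0` the hypothesis `hc₀` does not give `0 ≤ c₀`) -/
theorem slab_split (hc : Bd a b c) (h : F d →L[ℝ] ℝ) {c₀ : ℝ}
    (hc₀ : ∀ s : St d, |h (rv (sv s))| < c₀) (hc₀' : 0 ≤ c₀) (t : ℝ) (p x : V d)
    (hp : h (rv p) < t) (hx : t + c₀ ≤ h (rv x)) :
    ∃ z₁ z₂ : V d, (t ≤ h (rv z₁) ∧ h (rv z₁) < t + c₀) ∧ (t ≤ h (rv z₂) ∧ h (rv z₂) < t + c₀) ∧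
      T (cut (lo h t) b c) p z₁ + a * n1 (z₂ - z₁) + T (cut (hi h (t + c₀)) b c) z₂ x ≤
        T c p x := by
  obtain ⟨z₁, z₂, h1, h2, h3, h4, h5⟩ :=
    Helper45.PG.slab (F := fun x => h (rv x)) hc hc₀' (step_height h hc₀) hp hx
  refine ⟨z₁, z₂, ⟨h1, h2⟩, ⟨h3, h4⟩, ?_⟩
  rw [cut_eq_repl, cut_eq_repl]
  exact h5

end Pool.Agent.Helper51.NP
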