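import Pool.Agent.Helper51.NP.C1
import Pool.Agent.Helper45.PG.Step2

/-!
# Block C2: independence and one slab step in the mean (helper45)

Proof of `slab_step`: `w = ⌈1/l⌉₊`; round `z₁`, `z₂` of `slab_split` (level `t`, `p = 0`) to points
`w q₁`, `w q₂`; `T (cut _ b c)` has all weights at most `b`, so this costs `b n1 (z - w q) ≤ C / l`;
hence `exp (- l T(0, x)) ≤ C ∑ over (q₁, q₂) of exp (- l T⁻(0, w q₁)) exp (- l a n1 (w (q₂ - q₁)))
exp (- l T⁺(w q₂, x))` (only pairs with `|h - t| ≤ C / l`), take the expectation (independence,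
`T ≤ T⁻`, `T ≤ T⁺`), multiply by `exp (l g x)`.
The proofs are in `Pool/Agent/Helper45/PG/{Slab,Ind,Lat,Step,Step2}.lean`.
-/

set_option autoImplicit false

namespace Pool.Agent.Helper51.NP

open MeasureTheory ProbabilityTheory Filter Pool.Agent.Helper79.GR Pool.Agent.Helper79.GQ

variable {Ω : Type*} [MeasurableSpace Ω] {P : Measure Ω} {d : ℕ} {X : Edge d → Ω → ℝ}
  {ν : Measure ℝ} {a b l : ℝ}

theorem indep_cut' (hE : Env P X ν a b) {S S' : Set (Edge d)} (hS : Disjoint S S') (B B' : ℝ)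
    {β : Type*} [MeasurableSpace β] {f g : (Edge d → ℝ) → β} (hf : Measurable f)
    (hg : Measurable g) :
    IndepFun (fun ω => f (cut S B (cf X ω))) (fun ω => g (cut S' B' (cf X ω))) P := by
  rw [IndepFun_iff_Indep]
  have h0 := Helper45.PG.indep_sig hE (S1 := fun e => e ∈ S) (S2 := fun e => e ∈ S')
    fun e h1 h2 => (Set.disjoint_left.1 hS) h1 h2
  refine indep_of_indep_of_le_left (indep_of_indep_of_le_right h0 ?_) ?_
  · have := (hg.comp (Helper45.PG.meas_repl (X := X) (fun e => e ∈ S') B')).comap_le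
    simpa only [cut_eq_repl, Function.comp_def] using this
  · have := (hf.comp (Helper45.PG.meas_repl (X := X) (fun e => e ∈ S) B)).comap_le
    simpa only [cut_eq_repl, Function.comp_def] using this

theorem indep_cut (hE : Env P X ν a b) {S S' : Set (Edge d)} (hS : Disjoint S S') (B B' : ℝ)
    (x y x' y' : V d) :
    IndepFun (fun ω => T (cut S B (cf X ω)) x y) (fun ω => T (cut S' B' (cf X ω)) x' y') P :=
  indep_cut' hE hS B B' (measurable_T_cfg x y) (measurable_T_cfg x' y')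

theorem Zc_indep (hE : Env P X ν a b) {S S' : Set (Edge d)} (hS : Disjoint S S') (B B' l : ℝ)
    (x y x' y' : V d) :
    ∫ ω, Real.exp (-(l * T (cut S B (cf X ω)) x y)) *
      Real.exp (-(l * T (cut S' B' (cf X ω)) x' y')) ∂P =
      Zc P X S B l x y * Zc P X S' B' l x' y' := by
  have hm : ∀ x y : V d, Measurable fun c : Edge d → ℝ => Real.exp (-(l * T c x y)) :=
    fun x y => Real.measurable_exp.comp ((measurable_T_cfg x y).const_mul l).neg
  have h1 := indep_cut' hE hS B B' (hm x y) (hm x' y')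
  exact h1.integral_fun_mul_eq_mul_integral
    ((Real.measurable_exp.comp ((measurable_Tc hE S B x y).const_mul l).neg).aestronglyMeasurable)
    ((Real.measurable_exp.comp ((measurable_Tc hE S' B' x' y').const_mul l).neg).aestronglyMeasurable)

theorem slab_step (hE : Env P X ν a b) (h : F d →L[ℝ] ℝ) : ∃ C : ℝ, 1 ≤ C ∧
    ∀ (l M t : ℝ) (g : F d →L[ℝ] ℝ) (x : V d), 0 < l → l ≤ 1 →
      (∀ y, |g y - h y| ≤ a / 2 * nr y) → 0 < t → t + C ≤ h (rv x) →
      (∀ y : V d, |h (rv y) - (h (rv x) - t)| ≤ C / l →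
        Z P X l 0 y * Real.exp (l * g (rv y)) ≤ M) →
      ENNReal.ofReal (Z P X l 0 x * Real.exp (l * g (rv x))) ≤ ENNReal.ofReal (C * M) *
        ∑' q : {q : V d // |h (rv (⌈1 / l⌉₊ • q)) - t| ≤ C / l},
          ENNReal.ofReal (Z P X l 0 (⌈1 / l⌉₊ • q.1) *
            Real.exp (l * g (rv (⌈1 / l⌉₊ • q.1)))) := by
  have hH : 0 ≤ ‖h‖ * d := mul_nonneg (norm_nonneg _) (Nat.cast_nonneg _)
  have hc0 := Helper45.PG.c0_pos h
  have hLS := Helper45.PG.LS_lt_top (half_pos hE.apos) d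
  have hE0 : 0 ≤ Real.exp (Helper45.PG.KK a b h) * (Helper45.PG.LS d (a / 2)).toReal :=
    mul_nonneg (Real.exp_pos _).le ENNReal.toReal_nonneg
  have hC1 : 1 ≤ Helper45.PG.CC a b h := by
    unfold Helper45.PG.CC
    linarith
  refine ⟨Helper45.PG.CC a b h, hC1, ?_⟩
  intro l M t g x hl hl1 hg ht hx hM
  have hinv : 0 < 1 / l := one_div_pos.2 hl
  have hw0 : 0 < ⌈1 / l⌉₊ := Nat.ceil_pos.2 hinv
  have hw1 : 1 ≤ l * (⌈1 / l⌉₊ : ℝ) := by
    have h1 := Nat.le_ceil (1 / l)
    rw [div_le_iff₀ hl] at h1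
    linarith
  have hw2 : l * (⌈1 / l⌉₊ : ℝ) ≤ 2 := by
    have h1 := Nat.ceil_lt_add_one hinv.le
    have h2 : l * (⌈1 / l⌉₊ : ℝ) ≤ l * (1 / l + 1) := mul_le_mul_of_nonneg_left h1.le hl.le
    have h3 : l * (1 / l + 1) = 1 + l := by field_simp
    linarith
  have hint := Helper45.PG.integrated hE h g (C := Helper45.PG.CC a b h) (M := M) hl hl1 hg ht
    (by unfold Helper45.PG.CC; linarith) hx hw0 hw1 hw2 hM
  refine hint.trans (mul_le_mul_left ?_ _)
  rw [ENNReal.ofReal_mul (by linarith)]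
  refine mul_le_mul_left ?_ _
  rw [← ENNReal.ofReal_toReal hLS.ne, ← ENNReal.ofReal_mul (Real.exp_pos _).le]
  refine ENNReal.ofReal_le_ofReal ?_
  unfold Helper45.PG.CC
  linarith

end Pool.Agent.Helper51.NP
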