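import Pool.Agent.Helper51.NP.C2
import Pool.Agent.Helper51.NP.D

/-!
# Block C3: the slab lemma, by contraction (helper37)

If the slab sum is smaller than `exp (l n D) / C`, one slab step shows by induction on `J` that
`Z(0, x) exp (l g x) ≤ 2 ^ (-J) exp (l D h x)` for all `x` with `h x ≥ J (n + C₁ / l) + C₁`; then
`g - nl ≤ D - log 2 / (l (n + C₁ / l))` on `{h = 1}`, against the choice of `D`.
-/

set_option autoImplicit false

namespace Pool.Agent.Helper51.NP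

open MeasureTheory ProbabilityTheory Filter Pool.Agent.Helper79.GR Pool.Agent.Helper79.GQ
open scoped Topology

variable {Ω : Type*} [MeasurableSpace Ω] {P : Measure Ω} {d : ℕ} {X : Edge d → Ω → ℝ}
  {ν : Measure ℝ} {a b : ℝ}

/-- a continuous linear functional at the integer part -/
theorem C3_abs_apply_fl (f : F d →L[ℝ] ℝ) (n : ℕ) (x : F d) :
    |f (rv (fl n x)) - n * f x| ≤ ‖f‖ * d := by
  have h1 : f (rv (fl n x)) - n * f x = f (rv (fl n x) - (n : ℝ) • x) := by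
    rw [map_sub, map_smul, smul_eq_mul]
  rw [h1, ← Real.norm_eq_abs]
  refine (f.le_opNorm _).trans (mul_le_mul_of_nonneg_left ?_ (norm_nonneg _))
  exact (norm_le_nr _).trans (nr_fl n x)

theorem C3_tendsto_apply_fl (f : F d →L[ℝ] ℝ) (x : F d) :
    Tendsto (fun n : ℕ => f (rv (fl n x)) / n) atTop (𝓝 (f x)) := by
  have h1 : Tendsto (fun n : ℕ => ‖f‖ * d / (n : ℝ)) atTop (𝓝 0) :=
    tendsto_const_nhds.div_atTop tendsto_natCast_atTop_atTop
  rw [tendsto_iff_dist_tendsto_zero]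
  refine squeeze_zero' (Eventually.of_forall fun n => dist_nonneg) ?_ h1
  filter_upwards [eventually_gt_atTop 0] with n hn
  have hn' : (0 : ℝ) < n := by exact_mod_cast hn
  rw [Real.dist_eq, div_sub' hn'.ne', abs_div, abs_of_pos hn']
  exact div_le_div_of_nonneg_right (C3_abs_apply_fl f n x) hn'.le

/-- the contraction -/
theorem C3_contraction (hE : Env P X ν a b) {h g : F d →L[ℝ] ℝ} {C₁ l D n : ℝ} {S : ENNReal}
    (hC₁ : 1 ≤ C₁) (hl : 0 < l) (hD : 0 ≤ D) (hn : 0 < n)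
    (hnl : ∀ y, g y - nl P X l y ≤ D * max (h y) 0)
    (hstep : ∀ (M : ℝ) (x : V d), n + C₁ ≤ h (rv x) →
      (∀ y : V d, |h (rv y) - (h (rv x) - n)| ≤ C₁ / l →
        Z P X l 0 y * Real.exp (l * g (rv y)) ≤ M) →
      ENNReal.ofReal (Z P X l 0 x * Real.exp (l * g (rv x))) ≤ ENNReal.ofReal (C₁ * M) * S)
    (hS : ENNReal.ofReal (2 * C₁ * Real.exp (D * C₁)) * S ≤ ENNReal.ofReal (Real.exp (l * n * D)))
    (J : ℕ) : ∀ x : V d, J * (n + C₁ / l) + C₁ ≤ h (rv x) →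
      Z P X l 0 x * Real.exp (l * g (rv x)) ≤ (1 / 2) ^ J * Real.exp (l * D * h (rv x)) := by
  induction J with
  | zero =>
    intro x hx
    have h0 : 0 ≤ h (rv x) := by
      rw [Nat.cast_zero, zero_mul, zero_add] at hx
      linarith
    have h1 := Z_le_nl (P := P) (X := X) hE hl x
    have h2 := hnl (rv x)
    rw [max_eq_left h0] at h2
    rw [pow_zero, one_mul]
    refine (mul_le_mul_of_nonneg_right h1 (Real.exp_pos _).le).trans ?_
    rw [← Real.exp_add]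
    apply Real.exp_le_exp.2
    nlinarith
  | succ J ih =>
    intro x hx
    have hCl : 0 < C₁ / l := div_pos (by linarith) hl
    have hJ : (0 : ℝ) ≤ J := Nat.cast_nonneg J
    have hx' : J * (n + C₁ / l) + (n + C₁ / l) + C₁ ≤ h (rv x) := by
      push_cast at hx
      linarith
    have h3 := hstep ((1 / 2) ^ J * Real.exp (l * D * (h (rv x) - n + C₁ / l))) x
      (by nlinarith) (fun y hy => by
        have hy' := abs_le.1 hy
        refine (ih y (by linarith)).trans ?_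
        refine mul_le_mul_of_nonneg_left (Real.exp_le_exp.2 ?_) (by positivity)
        refine mul_le_mul_of_nonneg_left ?_ (mul_nonneg hl.le hD)
        linarith)
    have hpos : (0 : ℝ) < (1 / 2) ^ J * Real.exp (l * D * h (rv x)) := by positivity
    have e1 : C₁ * ((1 / 2) ^ J * Real.exp (l * D * (h (rv x) - n + C₁ / l))) =
        ((1 / 2) ^ (J + 1) * Real.exp (l * D * h (rv x)) * Real.exp (-(l * n * D))) *
          (2 * C₁ * Real.exp (D * C₁)) := by
      have e2 : l * D * (h (rv x) - n + C₁ / l) = l * D * h (rv x) + -(l * n * D) + D * C₁ := by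
        field_simp
        ring
      rw [e2, Real.exp_add, Real.exp_add]
      ring
    have hA : (0 : ℝ) ≤ (1 / 2) ^ (J + 1) * Real.exp (l * D * h (rv x)) *
        Real.exp (-(l * n * D)) := by positivity
    rw [e1, ENNReal.ofReal_mul hA, mul_assoc (ENNReal.ofReal _)] at h3
    have h4 := h3.trans (mul_le_mul_right hS _)
    rw [← ENNReal.ofReal_mul hA] at h4
    have e3 : (1 / 2 : ℝ) ^ (J + 1) * Real.exp (l * D * h (rv x)) * Real.exp (-(l * n * D)) *
        Real.exp (l * n * D) = (1 / 2) ^ (J + 1) * Real.exp (l * D * h (rv x)) := by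
      rw [mul_assoc, ← Real.exp_add, neg_add_cancel, Real.exp_zero, mul_one]
    rw [e3] at h4
    exact (ENNReal.ofReal_le_ofReal_iff (by positivity)).1 h4

/-- the gain of the contraction at `{h = 1}` -/
theorem C3_gain (hE : Env P X ν a b) {h g : F d →L[ℝ] ℝ} {C₁ l D n' : ℝ} (hl : 0 < l)
    (hD : 0 ≤ D) (hn : 0 < n')
    (hJ : ∀ (J : ℕ) (x : V d), J * n' + C₁ ≤ h (rv x) →
      Z P X l 0 x * Real.exp (l * g (rv x)) ≤ (1 / 2) ^ J * Real.exp (l * D * h (rv x)))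
    (x : F d) (hx : h x = 1) : l * (g x - nl P X l x) ≤ l * D - Real.log 2 / n' := by
  have t1 : Tendsto (fun n : ℕ => l * (g (rv (fl n x)) / n - al P X l (fl n x) / n)) atTop
      (𝓝 (l * (g x - nl P X l x))) :=
    ((C3_tendsto_apply_fl g x).sub (tendsto_al hE hl x)).const_mul l
  obtain ⟨K, hK⟩ : ∃ K : ℝ, K = l * D * (‖h‖ * d) +
    ((‖h‖ * d + |C₁|) / n' + 1) * Real.log 2 := ⟨_, rfl⟩
  have t2 : Tendsto (fun n : ℕ => l * D - Real.log 2 / n' + K / (n : ℝ)) atTop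
      (𝓝 (l * D - Real.log 2 / n' + 0)) :=
    tendsto_const_nhds.add (tendsto_const_nhds.div_atTop tendsto_natCast_atTop_atTop)
  rw [add_zero] at t2
  refine le_of_tendsto_of_tendsto t1 t2 ?_
  have hbig : ∀ᶠ n : ℕ in atTop, ‖h‖ * d + |C₁| ≤ (n : ℝ) :=
    tendsto_natCast_atTop_atTop.eventually_ge_atTop _
  filter_upwards [eventually_gt_atTop 0, hbig] with n hn0 hn1
  have hn' : (0 : ℝ) < n := by exact_mod_cast hn0
  have h1 := abs_le.1 (C3_abs_apply_fl h n x)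
  rw [hx, mul_one] at h1
  have hlog : 0 < Real.log 2 := Real.log_pos one_lt_two
  have hC := le_abs_self C₁
  -- the number of steps
  have hnn : 0 ≤ (n - (‖h‖ * d + |C₁|)) / n' := div_nonneg (by linarith) hn.le
  have hf1 := Nat.floor_le hnn
  have hf2 := Nat.lt_floor_add_one ((n - (‖h‖ * d + |C₁|)) / n')
  set J : ℕ := ⌊(n - (‖h‖ * d + |C₁|)) / n'⌋₊ with hJdef
  rw [le_div_iff₀ hn] at hf1
  have h2 := hJ J (fl n x) (by linarith)
  rw [Z_eq hE hl, ← Real.exp_add] at h2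
  have h3 := Real.log_le_log (Real.exp_pos _) h2
  rw [Real.log_exp, Real.log_mul (by positivity) (Real.exp_pos _).ne', Real.log_exp,
    Real.log_pow, one_div, Real.log_inv] at h3
  have h4 : l * D * h (rv (fl n x)) ≤ l * D * (n + ‖h‖ * d) :=
    mul_le_mul_of_nonneg_left (by linarith) (mul_nonneg hl.le hD)
  have h5 : ((n - (‖h‖ * d + |C₁|)) / n') * Real.log 2 ≤ (J + 1) * Real.log 2 :=
    mul_le_mul_of_nonneg_right hf2.le hlog.le
  have h6 : ((n - (‖h‖ * d + |C₁|)) / n') = n / n' - (‖h‖ * d + |C₁|) / n' := by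
    rw [sub_div]
  rw [h6] at h5
  have h7 : l * (g (rv (fl n x)) - al P X l (fl n x)) ≤
      (l * D - Real.log 2 / n') * n + K := by
    rw [hK]
    have : Real.log 2 / n' * n = n / n' * Real.log 2 := by ring
    rw [sub_mul, this]
    nlinarith
  have h8 : l * (g (rv (fl n x)) / n - al P X l (fl n x) / n) =
      (l * (g (rv (fl n x)) - al P X l (fl n x))) / n := by
    ring
  rw [h8, div_le_iff₀ hn', add_mul, div_mul_cancel₀ _ hn'.ne']
  exact h7

theorem slab (hE : Env P X ν a b) (h : F d →L[ℝ] ℝ) (K : ℝ) : ∃ C : ℝ, 1 ≤ C ∧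
    ∀ (l D : ℝ) (g : F d →L[ℝ] ℝ), 0 < l → l ≤ 1 → 0 ≤ D → D ≤ K * l →
      (∀ y, |g y - h y| ≤ a / 2 * nr y) → (∀ y, g y - nl P X l y ≤ D * max (h y) 0) →
      (∃ x, h x = 1 ∧ nl P X l x ≤ g x) →
      (∀ D' < D, ∃ x, h x = 1 ∧ D' < g x - nl P X l x) →
      ∀ n : ℝ, C / l ≤ n → ENNReal.ofReal (Real.exp (l * n * D)) ≤ ENNReal.ofReal C *
        ∑' q : {q : V d // |h (rv (⌈1 / l⌉₊ • q)) - n| ≤ C / l},
          ENNReal.ofReal (Z P X l 0 (⌈1 / l⌉₊ • q.1) *
            Real.exp (l * g (rv (⌈1 / l⌉₊ • q.1)))) := by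
  obtain ⟨C₁, hC₁, hstep⟩ := slab_step hE h
  have hexp : 1 ≤ Real.exp (|K| * C₁) := Real.one_le_exp (by positivity)
  have hCC : C₁ ≤ 2 * C₁ * Real.exp (|K| * C₁) := by nlinarith
  refine ⟨2 * C₁ * Real.exp (|K| * C₁), hC₁.trans hCC, ?_⟩
  intro l D g hl hl1 hD hDK hgh hnl _ hsup n hn
  by_contra hcon
  rw [not_le] at hcon
  have hC0 : 0 < 2 * C₁ * Real.exp (|K| * C₁) := by positivity
  have hn0 : 0 < n := (div_pos hC0 hl).trans_le hn
  -- the slab of width `C₁ / l`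
  have hsub : (∑' q : {q : V d // |h (rv (⌈1 / l⌉₊ • q)) - n| ≤ C₁ / l},
      ENNReal.ofReal (Z P X l 0 (⌈1 / l⌉₊ • q.1) * Real.exp (l * g (rv (⌈1 / l⌉₊ • q.1))))) ≤
      ∑' q : {q : V d // |h (rv (⌈1 / l⌉₊ • q)) - n| ≤ 2 * C₁ * Real.exp (|K| * C₁) / l},
      ENNReal.ofReal (Z P X l 0 (⌈1 / l⌉₊ • q.1) * Real.exp (l * g (rv (⌈1 / l⌉₊ • q.1)))) := by
    exact ENNReal.tsum_mono_subtype
      (fun q : V d => ENNReal.ofReal (Z P X l 0 (⌈1 / l⌉₊ • q) *
        Real.exp (l * g (rv (⌈1 / l⌉₊ • q)))))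
      (s := {q : V d | |h (rv (⌈1 / l⌉₊ • q)) - n| ≤ C₁ / l})
      (t := {q : V d | |h (rv (⌈1 / l⌉₊ • q)) - n| ≤ 2 * C₁ * Real.exp (|K| * C₁) / l})
      fun q hq => le_trans hq (div_le_div_of_nonneg_right hCC hl.le)
  have hDC : D * C₁ ≤ |K| * C₁ := by
    refine mul_le_mul_of_nonneg_right ?_ (by linarith)
    have h1 : K * l ≤ |K| * l := mul_le_mul_of_nonneg_right (le_abs_self K) hl.le
    have h2 : |K| * l ≤ |K| * 1 := mul_le_mul_of_nonneg_left hl1 (abs_nonneg K)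
    linarith
  have hS : ENNReal.ofReal (2 * C₁ * Real.exp (D * C₁)) *
      (∑' q : {q : V d // |h (rv (⌈1 / l⌉₊ • q)) - n| ≤ C₁ / l},
        ENNReal.ofReal (Z P X l 0 (⌈1 / l⌉₊ • q.1) * Real.exp (l * g (rv (⌈1 / l⌉₊ • q.1))))) ≤
      ENNReal.ofReal (Real.exp (l * n * D)) := by
    refine le_trans (mul_le_mul' (ENNReal.ofReal_le_ofReal ?_) hsub) hcon.le
    refine mul_le_mul_of_nonneg_left (Real.exp_le_exp.2 hDC) (by linarith)
  have hcontr := C3_contraction hE (C₁ := C₁) (l := l) (D := D) (n := n) (h := h) (g := g) hC₁ hl hD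
    hn0 hnl (fun M x hx hM => hstep l M n g x hl hl1 hgh hn0 hx hM) hS
  have hn'0 : 0 < n + C₁ / l := by positivity
  obtain ⟨x, hx, hx'⟩ := hsup (D - Real.log 2 / (2 * l * (n + C₁ / l))) (by
    have : 0 < Real.log 2 / (2 * l * (n + C₁ / l)) :=
      div_pos (Real.log_pos one_lt_two) (by positivity)
    linarith)
  have hg := C3_gain hE hl hD hn'0 hcontr x hx
  have h9 : l * (D - Real.log 2 / (2 * l * (n + C₁ / l))) =
      l * D - Real.log 2 / (n + C₁ / l) / 2 := by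
    field_simp
  have h10 : l * (D - Real.log 2 / (2 * l * (n + C₁ / l))) < l * (g x - nl P X l x) :=
    mul_lt_mul_of_pos_left hx' hl
  have h11 : 0 < Real.log 2 / (n + C₁ / l) := div_pos (Real.log_pos one_lt_two) hn'0
  linarith

end Pool.Agent.Helper51.NP
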