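import Pool.Agent.Helper51.NP.C3
import Pool.Agent.Helper51.NP.D
import Pool.Agent.Helper69.PG.Pack

/-!
# Block E: good pairs (inverse temperature, tilt) exist at all scales (owner: helper69)

Pigeonhole for `D k η = Dl P X (2 ^ (-k)) v h η`, `A = 2 d + 2`, `k₀ = L`; `l = 2 ^ (-k)`,
`δ = c / L`; `z1`, `z2` from (E1), (E2) at `l` and `2 l`; `low` from the slab lemma.  First replace
`s` by a smaller one, so that `s (1 + ‖h‖ nr v) ≤ a`.
-/

set_option autoImplicit false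

namespace Pool.Agent.Helper51.NP

open MeasureTheory ProbabilityTheory Filter Pool.Agent.Helper79.GR Pool.Agent.Helper79.GQ

variable {Ω : Type*} [MeasurableSpace Ω] {P : Measure Ω} {d : ℕ} {X : Edge d → Ω → ℝ}
  {ν : Measure ℝ} {a b s : ℝ} {v : F d} {h : F d →L[ℝ] ℝ}

theorem exists_pack (hE : Env P X ν a b) (hV : Vtx (uu P X) v h s) :
    ∃ C : ℝ, 1 ≤ C ∧ ∃ L₀ : ℕ, ∀ L : ℕ, L₀ ≤ L →
      ∃ (l D E : ℝ) (g : F d →L[ℝ] ℝ), Pack P X v h C L l D E g :=
  Pool.Agent.Helper69.PG.exists_pack hE hV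

end Pool.Agent.Helper51.NP
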