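import Pool.Agent.Helper76.NP.F1

/-!
# Block F1: one good end point (owner: helper76)
-/

set_option autoImplicit false

namespace Pool.Agent.Helper51.NP

open MeasureTheory ProbabilityTheory Filter Pool.Agent.Helper79.GR Pool.Agent.Helper79.GQ

variable {Ω : Type*} [MeasurableSpace Ω] {P : Measure Ω} {d : ℕ} {X : Edge d → Ω → ℝ}
  {ν : Measure ℝ} {a b s C : ℝ} {v : F d} {h : F d →L[ℝ] ℝ}

theorem good_point (hE : Env P X ν a b) (hv : h v = 1) (hC : 1 ≤ C) :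
    ∃ K : ℝ, 1 ≤ K ∧ ∃ L₀ : ℕ, ∀ L : ℕ, L₀ ≤ L → ∀ (l D E : ℝ) (g : F d →L[ℝ] ℝ),
      Pack P X v h C L l D E g → ∀ κ : ℝ, 1 ≤ κ → κ ≤ L → ∃ q : V d,
        κ / (2 * (l * E)) ≤ h (rv q) ∧ h (rv q) ≤ 2 * κ / (l * E) ∧
        tr v h (rv q) ≤ K * L ^ 2 / l ∧
        Real.exp (κ * D / E) - 1 / 4 ≤
          K * L ^ (2 * d) * (Z P X l 0 q * Real.exp (l * g (rv q))) :=
  Pool.Agent.Helper76.NP.good_point hE hv hC

end Pool.Agent.Helper51.NP
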