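import Pool.Agent.Helper99.NP.F2

/-!
# Block F2: the geodesic stays in a tube of width `K L ^ 2 / l` (helper32, helper99)

If `T < T (cut tube)` a minimal path from `0` to `q` has a vertex `z` outside of the tube, with
`n1 z ≤ (b / a) n1 q ≤ K n`, so `tr z > W = K L ^ 2 / l`, and `T(0, q) = T(0, z) + T(z, q)`; for each
`z` Cauchy-Schwarz and `Pack.z2` for `z` and `q - z`; the number of `z` is at most `exp (K' L)`.
-/

set_option autoImplicit false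

namespace Pool.Agent.Helper51.NP

open MeasureTheory ProbabilityTheory Filter Pool.Agent.Helper79.GR Pool.Agent.Helper79.GQ

variable {Ω : Type*} [MeasurableSpace Ω] {P : Measure Ω} {d : ℕ} {X : Edge d → Ω → ℝ}
  {ν : Measure ℝ} {a b B s C : ℝ} {v : F d} {h : F d →L[ℝ] ℝ}

/-- leaving the tube -/
theorem Z_sub_Zc_le (hE : Env P X ν a b) (hB : b ≤ B) (l W N : ℝ) (hl : 0 < l) (q : V d)
    (hN : b * n1 q ≤ a * N) :
    Z P X l 0 q ≤ Zc P X (tub v h W N) B l 0 q +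
      ∑ᶠ z ∈ {z : V d | n1 z ≤ N ∧ W < tr v h (rv z)},
        √(Z P X (2 * l) 0 z) * √(Z P X (2 * l) z q) :=
  Pool.Agent.Helper32.NP.Z_sub_Zc_le hE hB l W N hl q hN

theorem tube_moments (hE : Env P X ν a b) (hv : h v = 1) (hC : 1 ≤ C) (hB : b ≤ B) :
    ∃ K : ℝ, 1 ≤ K ∧ ∃ L₀ : ℕ, ∀ L : ℕ, L₀ ≤ L → ∀ (l D E : ℝ) (g : F d →L[ℝ] ℝ),
      Pack P X v h C L l D E g → ∀ κ : ℝ, 1 ≤ κ → κ ≤ L → ∃ q : V d,
        κ / (2 * (l * E)) ≤ h (rv q) ∧ h (rv q) ≤ 2 * κ / (l * E) ∧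
        tr v h (rv q) ≤ K * L ^ 2 / l ∧
        Real.exp (κ * D / E) - 1 / 2 ≤ K * L ^ (2 * d) *
          (Zc P X (tub v h (K * L ^ 2 / l) (K * κ / (l * E))) B l 0 q *
            Real.exp (l * g (rv q))) ∧
        Z P X l 0 q * Real.exp (l * g (rv q)) ≤ Real.exp (K * κ) ∧
        Z P X (2 * l) 0 q * Real.exp (2 * l * g (rv q)) ≤ Real.exp (K * κ) :=
  Pool.Agent.Helper99.NP.tube_moments hE hv hC hB

end Pool.Agent.Helper51.NP
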