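import Pool.Agent.Helper51.NP.A
import Pool.Agent.Helper59.PG.Pei

/-!
# Block G1: disorder is relevant on a finite set of edges (owners: helper59 `Gibbs on a finite
product`, Peierls, assembly, helper33 `coupling`)

`S` finite, all other edges have the weight `4 b`.  `α < β` with `ν [a, α] > 0`, `ν [β, b] > 0` and
`ν (-∞, β)` small (no atoms).  `log E exp (- l T_S) ≥ - l E' T_S - C ε ^ 2 |S|`, where in `E'` each
weight above `β` is replaced with probability `ε / ν [β, b]` by a fresh weight from `ν (· | [a, α])`;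
`E' T_S ≤ E T_S - (β - α) ε E #(edges of S with weight above β in a minimal path)`.
The number of edges outside of `S` is at most `T_S / (4 b)`, in the mean at most `n1 q / 2`; the
total number is at least `n1 q`; Peierls: few edges have a weight below `β`.
`ε = c l n1 q / |S|`.
-/

set_option autoImplicit false

namespace Pool.Agent.Helper51.NP

open MeasureTheory ProbabilityTheory Filter Pool.Agent.Helper79.GR Pool.Agent.Helper79.GQ

variable {Ω : Type*} [MeasurableSpace Ω] {P : Measure Ω} {d : ℕ} {X : Edge d → Ω → ℝ}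
  {ν : Measure ℝ} {a b : ℝ}

/-- without a lower bound for the number of edges of `S` -/
theorem gibbs' (hE : Env P X ν a b) (hν : ∀ x, ν {x} = 0) : ∃ c : ℝ, 0 < c ∧
    ∀ (S : Set (Edge d)) (q : V d) (l : ℝ), S.Finite → 0 < l → l ≤ 1 → 1 / c ≤ n1 q →
      mc P X S (4 * b) 0 q ≤ 2 * b * n1 q →
      -(l * mc P X S (4 * b) 0 q) + c * (l * n1 q) ^ 2 / S.ncard ≤
        Real.log (Zc P X S (4 * b) l 0 q) :=
  Pool.Agent.Helper59.PG.gibbs_of hE hν fun hd => Pool.Agent.Helper59.PG.pei hE hd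

theorem gibbs (hE : Env P X ν a b) (hν : ∀ x, ν {x} = 0) : ∃ c : ℝ, 0 < c ∧
    ∀ (S : Set (Edge d)) (q : V d) (l : ℝ), S.Finite → 0 < l → l ≤ 1 → 1 / c ≤ n1 q →
      n1 q ≤ S.ncard → mc P X S (4 * b) 0 q ≤ 2 * b * n1 q →
      -(l * mc P X S (4 * b) 0 q) + c * (l * n1 q) ^ 2 / S.ncard ≤
        Real.log (Zc P X S (4 * b) l 0 q) := by
  obtain ⟨c, hc, h⟩ := gibbs' hE hν
  exact ⟨c, hc, fun S q l h1 h2 h3 h4 _ h6 => h S q l h1 h2 h3 h4 h6⟩

end Pool.Agent.Helper51.NP
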