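import Pool.Agent.Helper59.PG.Rel

/-!
# Block G3: `Dl` is of the order of `E` (owner: helper59)

If `E < 2 l ^ (2 d + 2)` use `tube_moments` with `κ = 1`, `B = 4 b`: `paley` and `mc_le_of_prob`
give `mc ≤ g q + K log L / l + √(K n log L)`, `gibbs` and `card_tub` give
`c l ^ 2 n ^ 2 / (K n (K L ^ 2 / l) ^ (d - 1)) ≤ K log L + l √(K n log L)`, false for
`n ≥ 1 / (4 l ^ (2 d + 3))`, `l ≤ 2 ^ (-L)`, `L` large.
-/

set_option autoImplicit false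

namespace Pool.Agent.Helper51.NP

open MeasureTheory ProbabilityTheory Filter Pool.Agent.Helper79.GR Pool.Agent.Helper79.GQ

variable {Ω : Type*} [MeasurableSpace Ω] {P : Measure Ω} {d : ℕ} {X : Edge d → Ω → ℝ}
  {ν : Measure ℝ} {a b s C : ℝ} {v : F d} {h : F d →L[ℝ] ℝ}

theorem relevance (hd : 1 ≤ d) (hE : Env P X ν a b) (hν : ∀ x, ν {x} = 0) (hv : h v = 1) (hC : 1 ≤ C) :
    ∃ L₀ : ℕ, ∀ L : ℕ, L₀ ≤ L → ∀ (l D E : ℝ) (g : F d →L[ℝ] ℝ),
      Pack P X v h C L l D E g → E / 2 ≤ D :=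
  Pool.Agent.Helper59.PG.relevance hd hE hν hv hC

end Pool.Agent.Helper51.NP
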