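import Pool.Agent.Helper51.NP.F2
import Pool.Agent.Helper51.NP.G2
import Pool.Agent.Helper33.PG.Upd

/-!
# Block H1: with probability `1 / polylog` the tube has a passage time below the height by `1 / l`
(owner: helper75)

`tube_moments` with `κ = K₁ (1 + log L)`, `B = 4 b`: the mean of `Y = exp (- l (T_R - g q))` is at least
`exp (κ / 4)`, its second moment at most `exp (K κ)`; `paley`.
-/

set_option autoImplicit false

namespace Pool.Agent.Helper51.NP

open MeasureTheory ProbabilityTheory Filter Pool.Agent.Helper79.GR Pool.Agent.Helper79.GQ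

private theorem H1_mono {d : ℕ} {a b B : ℝ} {c : Edge d → ℝ} (hc : Bd a b c) (hB : b ≤ B)
    {S S' : Set (Edge d)} (hS : S ⊆ S') (x y : V d) :
    T (cut S' B c) x y ≤ T (cut S B c) x y := by
  refine Pool.Agent.Helper33.PG.T_mono (cut_bd hc hB S') (cut_bd hc hB S) (fun e => ?_) x y
  unfold cut Set.piecewise
  by_cases h1 : e ∈ S
  · rw [if_pos h1, if_pos (hS h1)]
  · rw [if_neg h1]
    split_ifs
    · exact (hc.2 e).2.trans hB
    · exact le_rfl

/-- the numbers -/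
private theorem H1_num (d : ℕ) (K₁ : ℝ) (hK : 1 ≤ K₁) : ∃ N : ℕ, 1 ≤ N ∧ ∃ L₀ : ℕ, 3 ≤ L₀ ∧
    ∀ L : ℕ, L₀ ≤ L → 2 * N * (1 + Real.log L) ≤ L ∧
      2 * Real.exp 1 * (K₁ * (L : ℝ) ^ (2 * d)) + 1 / 2 ≤ Real.exp (N * (1 + Real.log L)) := by
  obtain ⟨n, hn⟩ := exists_nat_ge (Real.log (2 * Real.exp 1 * K₁ + 1))
  set N : ℕ := n + 2 * d + 1 with hN
  have hN1 : 1 ≤ N := by omega
  have hN0 : (0 : ℝ) < N := by exact_mod_cast hN1
  have h1 := Real.isLittleO_log_id_atTop.bound (c := 1 / (4 * N)) (by positivity)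
  have h2 : ∀ᶠ L : ℕ in atTop, ‖Real.log (L : ℝ)‖ ≤ 1 / (4 * N) * ‖id (L : ℝ)‖ :=
    tendsto_natCast_atTop_atTop.eventually h1
  obtain ⟨L₁, hL₁⟩ := eventually_atTop.1 h2
  refine ⟨N, hN1, L₁ + 4 * N + 3, by omega, fun L hL => ?_⟩
  have hL3 : 3 ≤ L := by omega
  have hLr : (3 : ℝ) ≤ L := by exact_mod_cast hL3
  have h4 : (4 * N : ℝ) ≤ L := by exact_mod_cast (show 4 * N ≤ L by omega)
  have h3 := hL₁ L (by omega)
  simp only [id, Real.norm_eq_abs] at h3
  rw [abs_of_nonneg (show (0 : ℝ) ≤ (L : ℝ) by linarith)] at h3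
  have h5 : Real.log (L : ℝ) ≤ 1 / (4 * N) * L := (le_abs_self _).trans h3
  constructor
  · have h6 : 2 * (N : ℝ) * Real.log L ≤ L / 2 := by
      calc 2 * (N : ℝ) * Real.log L ≤ 2 * N * (1 / (4 * N) * L) :=
            mul_le_mul_of_nonneg_left h5 (by positivity)
        _ = L / 2 := by
            field_simp
            norm_num
    linarith
  · have h6 : Real.exp (N * (1 + Real.log L)) = (Real.exp 1 * L) ^ N := by
      rw [Real.exp_nat_mul, Real.exp_add, Real.exp_log (by linarith)]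
    have h7 : (1 : ℝ) ≤ Real.exp 1 := Real.one_le_exp (by norm_num)
    have h8 : 2 * Real.exp 1 * K₁ + 1 ≤ Real.exp 1 ^ n := by
      rw [← Real.exp_nat_mul, mul_one]
      have h9 : 0 < 2 * Real.exp 1 * K₁ + 1 := by positivity
      rw [← Real.exp_log h9]
      exact Real.exp_le_exp.2 hn
    have h9 : (1 : ℝ) ≤ (L : ℝ) ^ (2 * d) := one_le_pow₀ (by linarith)
    have h10 : Real.exp 1 ^ n * (L : ℝ) ^ (2 * d) ≤ (Real.exp 1 * L) ^ N := by
      calc Real.exp 1 ^ n * (L : ℝ) ^ (2 * d) ≤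
          (Real.exp 1 * L) ^ n * (Real.exp 1 * L) ^ (2 * d) := by
            apply mul_le_mul _ _ (by positivity) (by positivity)
            · exact pow_le_pow_left₀ (by positivity) (by nlinarith [Real.exp_pos 1]) _
            · exact pow_le_pow_left₀ (by positivity) (by nlinarith [Real.exp_pos 1]) _
        _ = (Real.exp 1 * L) ^ (n + 2 * d) := (pow_add _ _ _).symm
        _ ≤ _ := pow_le_pow_right₀ (by nlinarith [Real.exp_pos 1]) (by omega)
    rw [h6]
    refine le_trans ?_ h10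
    have h11 : (2 * Real.exp 1 * K₁ + 1) * (L : ℝ) ^ (2 * d) ≤
        Real.exp 1 ^ n * (L : ℝ) ^ (2 * d) := mul_le_mul_of_nonneg_right h8 (by positivity)
    refine le_trans ?_ h11
    nlinarith

variable {Ω : Type*} [MeasurableSpace Ω] {P : Measure Ω} {d : ℕ} {X : Edge d → Ω → ℝ}
  {ν : Measure ℝ} {a b s C : ℝ} {v : F d} {h : F d →L[ℝ] ℝ}

private theorem H1_b (hE : Env P X ν a b) (hv : h v = 1) : 0 < b := by
  have hd : 0 < d := by
    rcases Nat.eq_zero_or_pos d with hd | hd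
    · subst hd
      rw [Subsingleton.elim v 0, map_zero] at hv
      exact absurd hv zero_ne_one
    · exact hd
  have := hE.prob
  obtain ⟨ω⟩ : Nonempty Ω := by
    by_contra hc
    rw [not_nonempty_iff] at hc
    have h1 : P Set.univ = 1 := measure_univ
    rw [Set.univ_eq_empty_iff.2 hc, measure_empty] at h1
    exact zero_ne_one h1
  let e : Edge d := ed 0 (⟨0, hd⟩, true)
  exact hE.apos.trans_le ((hE.bd e ω).1.trans (hE.bd e ω).2)

/-- Paley-Zygmund -/
private theorem H1_pz (hE : Env P X ν a b) (hb : 0 < b) {S : Set (Edge d)} {l κ K₁ G : ℝ} {q : V d}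
    (hl : 0 < l) (h1 : 2 * Real.exp 1 ≤ Zc P X S (4 * b) l 0 q * Real.exp (l * G))
    (h2 : Z P X (2 * l) 0 q * Real.exp (2 * l * G) ≤ Real.exp (K₁ * κ)) :
    Real.exp (-(K₁ * κ)) ≤ P.real {ω | T (cut S (4 * b) (cf X ω)) 0 q ≤ G - 1 / l} := by
  have := hE.prob
  have hB : b ≤ 4 * b := by linarith
  set Y : Ω → ℝ := fun ω => Real.exp (-(l * T (cut S (4 * b) (cf X ω)) 0 q)) * Real.exp (l * G)
    with hY
  have hYm : Measurable Y := by
    have h3 := measurable_Tc hE S (4 * b) 0 q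
    exact (Real.measurable_exp.comp (h3.const_mul l).neg).mul_const _
  have hYb : ∃ C, ∀ ω, |Y ω| ≤ C := by
    refine ⟨Real.exp (l * G), fun ω => ?_⟩
    have h3 := T_nonneg' (cut_bd (hE.cf_bd ω) hB S) 0 q
    have h4 : 0 ≤ Y ω := by positivity
    rw [abs_of_nonneg h4]
    have h5 : Real.exp (-(l * T (cut S (4 * b) (cf X ω)) 0 q)) ≤ 1 := by
      rw [Real.exp_le_one_iff]
      have := mul_nonneg hl.le h3
      linarith
    exact mul_le_of_le_one_left (Real.exp_pos _).le h5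
  have hm1 : 2 * Real.exp 1 ≤ ∫ ω, Y ω ∂P := by
    rw [hY, integral_mul_const]
    exact h1
  have hm2 : ∫ ω, Y ω ^ 2 ∂P ≤ Real.exp (K₁ * κ) := by
    have h3 : ∀ ω, Y ω ^ 2 = Real.exp (-(2 * l * T (cut S (4 * b) (cf X ω)) 0 q)) *
        Real.exp (2 * l * G) := by
      intro ω
      rw [hY]
      simp only
      rw [mul_pow, ← Real.exp_nat_mul, ← Real.exp_nat_mul]
      congr 1 <;> congr 1 <;> push_cast <;> ring
    simp_rw [h3]
    rw [integral_mul_const]
    refine le_trans (mul_le_mul_of_nonneg_right ?_ (Real.exp_pos _).le) h2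
    exact Zc_le_Z hE hB S (by linarith : (0 : ℝ) ≤ 2 * l) 0 q
  have h3 := paley hYm hYb (by positivity) hm1 hm2
  have h4 : Real.exp (-(K₁ * κ)) ≤ (2 * Real.exp 1) ^ 2 / (4 * Real.exp (K₁ * κ)) := by
    rw [Real.exp_neg, le_div_iff₀ (by positivity)]
    have h5 : (1 : ℝ) ≤ Real.exp 1 := Real.one_le_exp (by norm_num)
    have h6 : (Real.exp (K₁ * κ))⁻¹ * (4 * Real.exp (K₁ * κ)) = 4 := by
      field_simp
    rw [h6]
    nlinarith
  refine h4.trans (h3.trans (measureReal_mono (fun ω hω => ?_) (by finiteness)))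
  have h5 : 2 * Real.exp 1 / 2 ≤ Y ω := hω
  have h6 : Real.exp 1 ≤ Real.exp (-(l * T (cut S (4 * b) (cf X ω)) 0 q) + l * G) := by
    rw [Real.exp_add]
    have h7 : 2 * Real.exp 1 / 2 = Real.exp 1 := by ring
    rw [h7] at h5
    exact h5
  rw [Real.exp_le_exp] at h6
  show T (cut S (4 * b) (cf X ω)) 0 q ≤ G - 1 / l
  have h7 : l * T (cut S (4 * b) (cf X ω)) 0 q ≤ l * (G - 1 / l) := by
    rw [mul_sub, mul_one_div_cancel hl.ne']
    linarith
  exact le_of_mul_le_mul_left h7 hl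

theorem good_tube (hE : Env P X ν a b) (hv : h v = 1) (hC : 1 ≤ C) :
    ∃ K : ℕ, 1 ≤ K ∧ ∃ L₀ : ℕ, ∀ L : ℕ, L₀ ≤ L → ∀ (l D E : ℝ) (g : F d →L[ℝ] ℝ),
      Pack P X v h C L l D E g → E / 2 ≤ D → ∃ (q : V d) (N : ℝ),
        1 / (K * l ^ 2) ≤ h (rv q) ∧ h (rv q) ≤ (K : ℝ) ^ L ∧
        tr v h (rv q) ≤ K * L ^ 2 / l ∧
        (1 / (L : ℝ)) ^ K ≤ P.real {ω | T (cut (tub v h (K * L ^ 2 / l) N) (4 * b) (cf X ω)) 0 q ≤
          g (rv q) - 1 / l} := by
  have hb := H1_b hE hv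
  obtain ⟨K₁, hK₁, L₁, H⟩ := tube_moments (B := 4 * b) hE hv hC (by linarith)
  obtain ⟨N, hN1, L₂, hL₂3, HN⟩ := H1_num d K₁ hK₁
  obtain ⟨K, hK⟩ := exists_nat_ge (4 * N * K₁ + K₁ + 2 * C + 4 * 4 ^ (2 * d + 3))
  have hN0 : (1 : ℝ) ≤ N := by exact_mod_cast hN1
  have hp4 : (0 : ℝ) < 4 ^ (2 * d + 3) := by positivity
  have hNK : 0 ≤ 4 * (N : ℝ) * K₁ := by positivity
  have hK1 : K₁ ≤ K := by linarith
  have hK2 : 2 * C ≤ K := by linarith
  have hK3 : 4 * (4 : ℝ) ^ (2 * d + 3) ≤ K := by linarith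
  have hK4 : 4 * (N : ℝ) * K₁ ≤ K := by linarith
  have hK0 : (0 : ℝ) < K := by linarith
  refine ⟨K, ?_, L₁ + L₂, fun L hL l D E g pk hDE => ?_⟩
  · have : (1 : ℝ) ≤ K := hK₁.trans hK1
    exact_mod_cast this
  have hL3 : 3 ≤ L := by omega
  have hLr : (3 : ℝ) ≤ L := by exact_mod_cast hL3
  obtain ⟨hκL, hexp⟩ := HN L (by omega)
  have hlog : 1 ≤ Real.log L := by
    rw [Real.le_log_iff_exp_le (by linarith)]
    exact (Real.exp_one_lt_d9.le.trans (by norm_num)).trans hLr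
  set κ : ℝ := 2 * N * (1 + Real.log L) with hκ
  have hκ1 : 1 ≤ κ := by nlinarith
  have hl := pk.lpos
  have hEpos : 0 < E := by
    rw [pk.DE]
    have := pk.D0
    positivity
  obtain ⟨q, q1, q2, q3, q4, _, q6⟩ := H L (by omega) l D E g pk κ hκ1 hκL
  refine ⟨q, K₁ * κ / (l * E), ?_, ?_, ?_, ?_⟩
  · -- lower bound for the height
    refine le_trans ?_ q1
    rw [div_le_div_iff₀ (by positivity) (by positivity)]
    have h1 : l * E ≤ C * l ^ 2 := by
      calc l * E ≤ l * (C * l) := mul_le_mul_of_nonneg_left pk.EC hl.le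
        _ = _ := by ring
    have h2 : 2 * (C * l ^ 2) ≤ K * l ^ 2 := by nlinarith [sq_nonneg l]
    have h3 : 0 ≤ (K : ℝ) * l ^ 2 := by positivity
    nlinarith
  · -- upper bound
    refine q2.trans ?_
    have h1 : l ^ (2 * d + 3) ≤ l * E := by
      rw [pk.DE, show 2 * d + 3 = (2 * d + 2) + 1 by ring, pow_succ, mul_comm]
      apply mul_le_mul_of_nonneg_left _ hl.le
      have := pk.D0
      linarith
    have h2 : ((1 / 4 : ℝ) ^ L) ^ (2 * d + 3) ≤ l ^ (2 * d + 3) :=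
      pow_le_pow_left₀ (by positivity) pk.llo _
    have h3 : 2 * (L : ℝ) ≤ 4 ^ L := by
      have h4 : (L : ℝ) ≤ 2 ^ L := by exact_mod_cast (Nat.lt_two_pow_self (n := L)).le
      have h5 : (2 : ℝ) ≤ 2 ^ L := by
        calc (2 : ℝ) = 2 ^ 1 := by norm_num
          _ ≤ 2 ^ L := pow_le_pow_right₀ (by norm_num) (by omega)
      calc 2 * (L : ℝ) ≤ 2 ^ L * 2 ^ L := mul_le_mul h5 h4 (by positivity) (by positivity)
        _ = 4 ^ L := by rw [← mul_pow]; norm_num
    have h4 : 2 * κ ≤ 4 ^ L := by linarith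
    rw [div_le_iff₀ (by positivity)]
    have h5 : (4 : ℝ) ^ L * (((4 : ℝ) ^ (2 * d + 3)) ^ L * ((1 / 4 : ℝ) ^ L) ^ (2 * d + 3)) =
        4 ^ L := by
      have : ((4 : ℝ) ^ (2 * d + 3)) ^ L * ((1 / 4 : ℝ) ^ L) ^ (2 * d + 3) = 1 := by
        rw [← pow_mul, ← pow_mul, mul_comm L, ← mul_pow]
        norm_num
      rw [this, mul_one]
    have h6 : (4 : ℝ) ^ L * ((4 : ℝ) ^ (2 * d + 3)) ^ L ≤ (K : ℝ) ^ L := by
      rw [← mul_pow]
      exact pow_le_pow_left₀ (by positivity) hK3 _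
    calc 2 * κ ≤ 4 ^ L := h4
      _ = 4 ^ L * ((4 : ℝ) ^ (2 * d + 3)) ^ L * ((1 / 4 : ℝ) ^ L) ^ (2 * d + 3) := by
          rw [mul_assoc]
          exact h5.symm
      _ ≤ (K : ℝ) ^ L * (l * E) :=
          mul_le_mul h6 (h2.trans h1) (by positivity) (by positivity)
  · refine q3.trans ?_
    apply div_le_div_of_nonneg_right _ hl.le
    exact mul_le_mul_of_nonneg_right hK1 (by positivity)
  · -- the probability
    have hm : 2 * Real.exp 1 ≤ Zc P X (tub v h (K₁ * L ^ 2 / l) (K₁ * κ / (l * E))) (4 * b) l 0 q *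
        Real.exp (l * g (rv q)) := by
      have h1 : Real.exp (N * (1 + Real.log L)) ≤ Real.exp (κ * D / E) := by
        apply Real.exp_le_exp.2
        rw [le_div_iff₀ hEpos]
        have h2 : κ * (E / 2) ≤ κ * D := mul_le_mul_of_nonneg_left hDE (by linarith)
        have h3 : N * (1 + Real.log L) * E = κ * (E / 2) := by
          rw [hκ]
          ring
        linarith
      have h2 : 0 < K₁ * (L : ℝ) ^ (2 * d) := by positivity
      have h3 : K₁ * (L : ℝ) ^ (2 * d) * (2 * Real.exp 1) ≤ K₁ * (L : ℝ) ^ (2 * d) *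
          (Zc P X (tub v h (K₁ * L ^ 2 / l) (K₁ * κ / (l * E))) (4 * b) l 0 q *
            Real.exp (l * g (rv q))) := by
        refine le_trans ?_ q4
        linarith
      exact le_of_mul_le_mul_left h3 h2
    have h1 := H1_pz hE hb hl hm q6
    have h2 : (1 / (L : ℝ)) ^ K ≤ Real.exp (-(K₁ * κ)) := by
      have h3 : (1 / (L : ℝ)) ^ K = Real.exp (-(K * Real.log L)) := by
        rw [Real.exp_neg, Real.exp_nat_mul, Real.exp_log (by linarith), one_div, inv_pow]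
      rw [h3, Real.exp_le_exp, neg_le_neg_iff]
      have h4 : K₁ * κ ≤ 4 * N * K₁ * Real.log L := by
        rw [hκ]
        have h5 : 0 ≤ 2 * (N : ℝ) * K₁ := by positivity
        nlinarith
      exact h4.trans (mul_le_mul_of_nonneg_right hK4 (by linarith))
    refine h2.trans (h1.trans (measureReal_mono (fun ω hω => ?_) ?_))
    · have hS : tub v h (K₁ * L ^ 2 / l) (K₁ * κ / (l * E)) ⊆
          tub v h (K * L ^ 2 / l) (K₁ * κ / (l * E)) := by
        intro e he x hx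
        refine ⟨(he x hx).1.trans ?_, (he x hx).2⟩
        apply div_le_div_of_nonneg_right _ hl.le
        exact mul_le_mul_of_nonneg_right hK1 (by positivity)
      exact (H1_mono (hE.cf_bd ω) (by linarith) hS 0 q).trans hω
    · have := hE.prob
      finiteness

end Pool.Agent.Helper51.NP
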