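import Pool.Agent.Helper51.NP.B
import Pool.Agent.Helper79.PG.Defs
import Pool.Agent.Helper10.PG.IndepTubes
import Pool.Agent.Helper89.PG.GlueB

/-!
# Block H2: gluing along the face, in the notation of `Helper79.PG` (owners: helper10
`indep_tubes`, helper89 `glue`, helper30 the numbers)
-/

set_option autoImplicit false

namespace Pool.Agent.Helper51.NP

open MeasureTheory ProbabilityTheory Filter Pool.Agent.Helper79.GR Pool.Agent.Helper79.GQ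

variable {Ω : Type*} [MeasurableSpace Ω] {P : Measure Ω} {d : ℕ} {X : Edge d → Ω → ℝ}
  {ν : Measure ℝ} {a b B : ℝ}

/-- a fluctuation of size `L` below the time constant, inside a tube of width `K ^ C * L`, of
probability at least `1 / K ^ C` -/
def Flu (P : Measure Ω) (X : Edge d → Ω → ℝ) (b : ℝ) (φ : F d →ₗ[ℝ] ℝ) (v : F d) (C K : ℕ)
    (q : V d) (R : Finset (Edge d)) (L : ℝ) : Prop :=
  2 ^ K ≤ L ∧ L ^ 2 ≤ C * φ (rv q) ∧ n1 q ≤ Real.exp (C * K) ∧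
  nr (Helper79.PG.Yp φ v (rv q)) ≤ K ^ C * L ∧
  (∀ e ∈ R, ∀ x ∈ e.1, nr (Helper79.PG.Yp φ v (rv x)) ≤ K ^ C * L) ∧
  1 / (K : ℝ) ^ C ≤
    P.real {ω | T (Helper79.PG.cut (4 * b) R (cf X ω)) 0 q ≤ tc (mm P X) (rv q) - L}

theorem glue (h : Env P X ν a b) (hd : 1 ≤ d) {φ : F d →ₗ[ℝ] ℝ} {v : F d} (hv : φ v = 1)
    {ρ : F d →ₗ[ℝ] ℝ} (hρ : ∀ x, ρ x ≤ tc (mm P X) x) {v' : F d} (hv' : ρ v' = 1)
    (hY : Helper79.PG.Yp φ v v' ≠ 0) {C' : ℝ}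
    (hr : ∀ n : ℕ, mm P X (fl n v') ≤ n + C' * √n) (C : ℕ) :
    ∃ K₁ : ℕ, ∀ (K : ℕ) (q : V d) (R : Finset (Edge d)) (L : ℝ), K₁ ≤ K →
      Flu P X b φ v C K q R L → ρ (rv q) ≠ tc (mm P X) (rv q) := by
  have hb := Pool.Agent.Helper89.PG.b_pos h hd
  obtain ⟨K₁, hK₁⟩ := Pool.Agent.Helper89.PG.glue_of_indep h hd
    (fun R q t r z hz => Pool.Agent.Helper10.PG.indep_tubes h (by linarith) R q t r z hz)
    (φ := φ) (v := v) hρ hv' hY hr C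
  exact ⟨K₁, fun K q R L hK hF => hK₁ K q R L hK hF.1 hF.2.1 hF.2.2.1 hF.2.2.2.2.1 hF.2.2.2.2.2⟩

end Pool.Agent.Helper51.NP
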