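import Pool.Agent.Helper51.NP.C3
import Pool.Agent.Helper51.NP.F0

/-!
# Block R: the rate of convergence in the direction of a vertex (helper56)

`l = t ^ (-1/2)`, `g = h`, the slab lemma, (E2) with a fixed `δ`, `sum_slab`, `mm_le_of_Z`: if all
the terms of the slab sum were below `c exp (- l δ tr / 2)`, the sum would be below `1 / C`.
-/

set_option autoImplicit false

namespace Pool.Agent.Helper51.NP

open MeasureTheory ProbabilityTheory Filter Pool.Agent.Helper79.GR Pool.Agent.Helper79.GQ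

variable {Ω : Type*} [MeasurableSpace Ω] {P : Measure Ω} {d : ℕ} {X : Edge d → Ω → ℝ}
  {ν : Measure ℝ} {a b s : ℝ} {v : F d} {h : F d →L[ℝ] ℝ}

private theorem R_b_pos (hE : Env P X ν a b) (hV : Vtx (uu P X) v h s) : 0 < b := by
  have h1 := uu_le hE v
  rw [hV.one] at h1
  by_contra hb
  rw [not_lt] at hb
  have := mul_nonpos_of_nonpos_of_nonneg hb (nr_nonneg v)
  linarith

private theorem R_hk_nonneg (hE : Env P X ν a b) (hV : Vtx (uu P X) v h s) : 0 ≤ hk a b b := by
  unfold hk
  have h1 := R_b_pos hE hV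
  have h2 := hE.apos
  positivity

private theorem R_gt_zero (x : F d) : gt v h 0 x = h x := by
  rw [gt_apply]
  simp

/-- a good cell near `t v` -/
private theorem R_cell (hE : Env P X ν a b) (hV : Vtx (uu P X) v h s) :
    ∃ C t₀ : ℝ, 1 ≤ C ∧ 1 ≤ t₀ ∧ ∀ t : ℝ, t₀ ≤ t → ∃ x : V d, |h (rv x) - t| ≤ C * √t ∧
      tr v h (rv x) ≤ C * √t ∧
      1 / C ≤ Z P X (1 / √t) 0 x * Real.exp (1 / √t * h (rv x)) := by
  have hb := R_b_pos hE hV
  have hk0 := R_hk_nonneg hE hV
  have hs := hV.spos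
  have hnv : 0 ≤ nr v := nr_nonneg v
  set H : ℝ := hk a b b with hH
  set K : ℝ := H * nr v with hK
  have hK0 : 0 ≤ K := mul_nonneg hk0 hnv
  obtain ⟨C₁, hC₁, hslab⟩ := slab hE h K
  obtain ⟨K₃, hK₃, hsum⟩ := sum_slab v h hV.hv C₁ (by linarith)
  set δ : ℝ := min (s / 2) 1 with hδ
  have hδ0 : 0 < δ := lt_min (by linarith) one_pos
  have hδs : δ ≤ s / 2 := min_le_left _ _
  have hδ1 : δ ≤ 1 := min_le_right _ _
  set S : ℝ := K₃ / (δ / 2) ^ d with hS
  have hS0 : 0 < S := by positivity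
  set c : ℝ := 1 / (2 * C₁ * S) with hc
  have hc0 : 0 < c := by positivity
  set K₂ : ℝ := K * (1 + C₁) with hK₂
  have hK₂0 : 0 ≤ K₂ := by positivity
  set R : ℝ := 2 / δ * (K₂ + |Real.log (1 / c)|) with hR
  have hR0 : 0 ≤ R := by positivity
  set c' : ℝ := c * Real.exp (-(δ / 2 * R)) with hc'
  have hc'0 : 0 < c' := by positivity
  refine ⟨max (max C₁ R) (1 / c'), max (max 1 (C₁ ^ 2)) ((4 * H / s) ^ 2),
    (hC₁.trans (le_max_left _ _)).trans (le_max_left _ _),
    (le_max_left _ _).trans (le_max_left _ _), fun t ht => ?_⟩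
  have ht1 : 1 ≤ t := ((le_max_left _ _).trans (le_max_left _ _)).trans ht
  have ht2 : C₁ ^ 2 ≤ t := ((le_max_right _ _).trans (le_max_left _ _)).trans ht
  have ht3 : (4 * H / s) ^ 2 ≤ t := (le_max_right _ _).trans ht
  have hq1 : 1 ≤ √t := by rw [Real.one_le_sqrt]; exact ht1
  have hq0 : 0 < √t := by linarith
  have hq2 : C₁ ≤ √t := Real.le_sqrt_of_sq_le ht2
  have hq3 : 4 * H / s ≤ √t := Real.le_sqrt_of_sq_le ht3
  have hqt : √t * √t = t := Real.mul_self_sqrt (by linarith)
  set l : ℝ := 1 / √t with hl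
  have hl0 : 0 < l := by positivity
  have hl1 : l ≤ 1 := by rw [hl, div_le_one hq0]; exact hq1
  have hlq : l * √t = 1 := by rw [hl]; field_simp
  have hlt : l * t = √t := by
    calc l * t = l * (√t * √t) := by rw [hqt]
      _ = √t := by rw [← mul_assoc, hlq, one_mul]
  have hls : 2 * H * l ≤ s / 2 := by
    rw [div_le_iff₀ hs] at hq3
    have : 4 * H * l ≤ s := by
      calc 4 * H * l ≤ √t * s * l := mul_le_mul_of_nonneg_right hq3 hl0.le
        _ = s * (l * √t) := by ring
        _ = s := by rw [hlq, mul_one]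
    linarith
  have h00 : ∀ j : Fin d, |(0 : Fin d → ℝ) j| ≤ s / 2 := fun j => by
    rw [Pi.zero_apply, abs_zero]; linarith
  set D : ℝ := Dl P X l v h 0 with hD
  have hD0 : 0 ≤ D := Dl_nonneg hE hl0 hV hls 0 h00
  have hDK : D ≤ K * l := Dl_le hE hl0 hV hls 0 h00
  -- the upper bound of the terms
  have hup : ∀ x : V d, Z P X l 0 x * Real.exp (l * h (rv x)) ≤
      Real.exp (l * (K * l * max (h (rv x)) 0 - δ * tr v h (rv x))) := by
    intro x
    have h1 := E2 hE hl0 hV hls hδ0 (mul_nonneg hK0 hl0.le) 0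
      (fun j => by rw [Pi.zero_apply, abs_zero, zero_add]; exact hδs)
      (fun e he => by
        rw [zero_add]
        exact Dl_le hE hl0 hV hls e fun j => (he j).trans hδs) (rv x)
    rw [R_gt_zero] at h1
    calc Z P X l 0 x * Real.exp (l * h (rv x))
        ≤ Real.exp (-(l * nl P X l (rv x))) * Real.exp (l * h (rv x)) :=
          mul_le_mul_of_nonneg_right (Z_le_nl hE hl0 x) (Real.exp_pos _).le
      _ = Real.exp (l * (h (rv x) - nl P X l (rv x))) := by
          rw [← Real.exp_add]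
          congr 1
          ring
      _ ≤ _ := Real.exp_le_exp.2 (mul_le_mul_of_nonneg_left h1 hl0.le)
  -- the slab lemma
  have hs1 := hslab l D h hl0 hl1 hD0 hDK
    (fun y => by rw [sub_self, abs_zero]; exact mul_nonneg (by linarith [hE.apos]) (nr_nonneg y))
    (fun y => by
      have h1 := gt_sub_nl_le hE hl0 hV hls 0 h00 y
      rwa [R_gt_zero] at h1)
    ⟨v, hV.hv, by
      have h1 := nl_le_uu hE hl0 v
      rw [hV.one] at h1
      rw [hV.hv]
      exact h1⟩
    (fun D' hD' => by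
      obtain ⟨x, h1, h2⟩ := exists_Dl hE hl0 hV hls 0 h00 hD'
      rw [R_gt_zero] at h2
      exact ⟨x, h1, h2⟩) t (by
        rw [hl, div_div_eq_mul_div, div_one]
        calc C₁ * √t ≤ √t * √t := mul_le_mul_of_nonneg_right hq2 hq0.le
          _ = t := hqt)
  have hs2 : (1 : ENNReal) ≤ ENNReal.ofReal (Real.exp (l * t * D)) := by
    rw [← ENNReal.ofReal_one]
    exact ENNReal.ofReal_le_ofReal (Real.one_le_exp (by positivity))
  -- the pigeonhole
  obtain ⟨q, hq⟩ : ∃ q : {q : V d // |h (rv (⌈1 / l⌉₊ • q)) - t| ≤ C₁ / l},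
      c * Real.exp (-(l * (δ / 2 * tr v h (rv (⌈1 / l⌉₊ • q.1))))) ≤
        Z P X l 0 (⌈1 / l⌉₊ • q.1) * Real.exp (l * h (rv (⌈1 / l⌉₊ • q.1))) := by
    by_contra hcon
    push Not at hcon
    have h1 : ∑' q : {q : V d // |h (rv (⌈1 / l⌉₊ • q)) - t| ≤ C₁ / l},
        ENNReal.ofReal (Z P X l 0 (⌈1 / l⌉₊ • q.1) *
          Real.exp (l * h (rv (⌈1 / l⌉₊ • q.1)))) ≤ ENNReal.ofReal c * ENNReal.ofReal S := by
      calc _ ≤ ∑' q : {q : V d // |h (rv (⌈1 / l⌉₊ • q)) - t| ≤ C₁ / l},
            ENNReal.ofReal c *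
              ENNReal.ofReal (Real.exp (-(l * (δ / 2 * tr v h (rv (⌈1 / l⌉₊ • q.1)))))) := by
            refine ENNReal.tsum_le_tsum fun q => ?_
            rw [← ENNReal.ofReal_mul hc0.le]
            exact ENNReal.ofReal_le_ofReal (hcon q).le
        _ = ENNReal.ofReal c * ∑' q : {q : V d // |h (rv (⌈1 / l⌉₊ • q)) - t| ≤ C₁ / l},
              ENNReal.ofReal (Real.exp (-(l * (δ / 2 * tr v h (rv (⌈1 / l⌉₊ • q.1)))))) :=
            ENNReal.tsum_mul_left
        _ ≤ _ := by
            gcongr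
            exact hsum l (δ / 2) t hl0 hl1 (by positivity) (by linarith)
    have h2 : ENNReal.ofReal C₁ * (ENNReal.ofReal c * ENNReal.ofReal S) =
        ENNReal.ofReal (1 / 2) := by
      rw [← ENNReal.ofReal_mul hc0.le, ← ENNReal.ofReal_mul (by linarith)]
      congr 1
      rw [hc]
      field_simp
    have h3 : (1 : ENNReal) ≤ ENNReal.ofReal (1 / 2) := by
      rw [← h2]
      exact (hs2.trans hs1).trans (by gcongr)
    rw [← ENNReal.ofReal_one, ENNReal.ofReal_le_ofReal_iff (by norm_num)] at h3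
    norm_num at h3
  have hxt0 : |h (rv (⌈1 / l⌉₊ • q.1)) - t| ≤ C₁ / l := q.2
  generalize ⌈1 / l⌉₊ • q.1 = x at hxt0 hq
  have hxt : |h (rv x) - t| ≤ C₁ * √t := by
    have h2 : C₁ / l = C₁ * √t := by
      rw [hl, div_div_eq_mul_div, div_one]
    exact hxt0.trans h2.le
  have htr0 : 0 ≤ tr v h (rv x) := tr_nonneg _
  -- the transversal localisation
  have htr : l * (δ / 2) * tr v h (rv x) ≤ δ / 2 * R := by
    have h1 := hq.trans (hup x)
    have h2 : Real.exp (-Real.log (1 / c)) = c := by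
      rw [one_div, Real.log_inv, neg_neg, Real.exp_log hc0]
    replace h1 : Real.exp (-Real.log (1 / c) + -(l * (δ / 2 * tr v h (rv x)))) ≤
        Real.exp (l * (K * l * max (h (rv x)) 0 - δ * tr v h (rv x))) := by
      rw [Real.exp_add, h2]
      exact h1
    rw [Real.exp_le_exp] at h1
    have h3 : max (h (rv x)) 0 ≤ t + C₁ * √t := by
      refine max_le ?_ (by positivity)
      have := (abs_le.1 hxt).2
      linarith
    have h4 : l * (K * l * max (h (rv x)) 0) ≤ K₂ := by
      calc l * (K * l * max (h (rv x)) 0) ≤ l * (K * l * (t + C₁ * √t)) := by gcongr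
        _ = K * (l * (l * t) + C₁ * (l * (l * √t))) := by ring
        _ = K * (1 + C₁ * l) := by rw [hlt, hlq, mul_one]
        _ ≤ K * (1 + C₁) := by
            refine mul_le_mul_of_nonneg_left ?_ hK0
            nlinarith
    have h5 := le_abs_self (Real.log (1 / c))
    have h6 : δ / 2 * R = K₂ + |Real.log (1 / c)| := by
      rw [hR]
      field_simp
    have h7 : l * (K * l * max (h (rv x)) 0 - δ * tr v h (rv x)) =
        l * (K * l * max (h (rv x)) 0) - 2 * (l * (δ / 2) * tr v h (rv x)) := by ring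
    have h8 : l * (δ / 2 * tr v h (rv x)) = l * (δ / 2) * tr v h (rv x) := by ring
    rw [h7, h8] at h1
    rw [h6]
    linarith
  have htr2 : tr v h (rv x) ≤ R * √t := by
    have h1 : l * tr v h (rv x) ≤ R := by
      by_contra hcon
      rw [not_le] at hcon
      have : δ / 2 * R < δ / 2 * (l * tr v h (rv x)) :=
        mul_lt_mul_of_pos_left hcon (by positivity)
      linarith
    calc tr v h (rv x) = l * tr v h (rv x) * √t := by
          rw [mul_comm l, mul_assoc, hlq, mul_one]
      _ ≤ R * √t := mul_le_mul_of_nonneg_right h1 hq0.le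
  have hM1 : C₁ ≤ max (max C₁ R) (1 / c') := (le_max_left _ _).trans (le_max_left _ _)
  have hM2 : R ≤ max (max C₁ R) (1 / c') := (le_max_right _ _).trans (le_max_left _ _)
  have hM3 : 1 / c' ≤ max (max C₁ R) (1 / c') := le_max_right _ _
  generalize max (max C₁ R) (1 / c') = M at hM1 hM2 hM3 ⊢
  have hM0 : 0 < M := by linarith
  have e1 : C₁ * √t ≤ M * √t := mul_le_mul_of_nonneg_right hM1 hq0.le
  have e2 : R * √t ≤ M * √t := mul_le_mul_of_nonneg_right hM2 hq0.le
  have e3 : 1 / M ≤ c' := by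
    rw [one_div_le hM0 hc'0]
    exact hM3
  have e4 : c' ≤ c * Real.exp (-(l * (δ / 2 * tr v h (rv x)))) := by
    rw [hc']
    refine mul_le_mul_of_nonneg_left (Real.exp_le_exp.2 ?_) hc0.le
    have : l * (δ / 2 * tr v h (rv x)) = l * (δ / 2) * tr v h (rv x) := by ring
    rw [this]
    linarith
  exact ⟨x, hxt.trans e1, htr2.trans e2, e3.trans (e4.trans hq)⟩

theorem rate (hE : Env P X ν a b) (hV : Vtx (uu P X) v h s) :
    ∃ C : ℝ, 1 ≤ C ∧ ∀ t : ℝ, 0 ≤ t → mm P X (fl 1 (t • v)) ≤ t + C * √t + C := by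
  have hb := R_b_pos hE hV
  have hk0 := R_hk_nonneg hE hV
  have hnv : 0 ≤ nr v := nr_nonneg v
  have hm := subM_mm hE
  obtain ⟨C, t₀, hC, ht₀, hcell⟩ := R_cell hE hV
  set H : ℝ := hk a b b with hH
  set A : ℝ := C + H * ((1 + C) * nr v + C) + Real.log C + b * (d + C * nr v + C) with hA
  have hlogC : 0 ≤ Real.log C := Real.log_nonneg hC
  have hd0 : (0 : ℝ) ≤ d := Nat.cast_nonneg d
  have hA0 : 1 ≤ A := by
    have h1 : 0 ≤ H * ((1 + C) * nr v + C) := by positivity
    have h2 : 0 ≤ b * (d + C * nr v + C) := by positivity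
    linarith
  have hB0 : 0 ≤ b * (t₀ * nr v + d) := by positivity
  refine ⟨A + b * (t₀ * nr v + d), by linarith, fun t ht => ?_⟩
  have hfl : ∀ r : ℝ, 0 ≤ r → nr (rv (fl 1 (r • v)) - r • v) ≤ d := by
    intro r _
    have h1 := nr_fl 1 (r • v)
    rwa [Nat.cast_one, one_smul] at h1
  rcases lt_or_ge t t₀ with h1 | h1
  · have h2 : n1 (fl 1 (t • v)) ≤ t₀ * nr v + d := by
      have h3 := hfl t ht
      have h4 := nr_add_le (rv (fl 1 (t • v)) - t • v) (t • v)
      rw [sub_add_cancel, nr_rv, nr_smul, abs_of_nonneg ht] at h4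
      have h5 : t * nr v ≤ t₀ * nr v := mul_le_mul_of_nonneg_right h1.le hnv
      linarith
    have h3 := hm.hi (fl 1 (t • v))
    have h4 : b * n1 (fl 1 (t • v)) ≤ b * (t₀ * nr v + d) := mul_le_mul_of_nonneg_left h2 hb.le
    have h5 : 0 ≤ (A + b * (t₀ * nr v + d)) * √t :=
      mul_nonneg (by linarith) (Real.sqrt_nonneg t)
    linarith
  · obtain ⟨x, hx1, hx2, hx3⟩ := hcell t h1
    have ht1 : 1 ≤ t := ht₀.trans h1
    have hq1 : 1 ≤ √t := by rw [Real.one_le_sqrt]; exact ht1
    have hq0 : 0 < √t := by linarith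
    have hqt : √t * √t = t := Real.mul_self_sqrt ht
    have htr0 : 0 ≤ tr v h (rv x) := tr_nonneg _
    have hn1 : n1 x ≤ (t + C * √t) * nr v + C * √t := by
      have h3 := nr_le_tr (v := v) (h := h) (rv x)
      rw [nr_rv] at h3
      have h4 : |h (rv x)| ≤ t + C * √t := by
        have h5 : h (rv x) = (h (rv x) - t) + t := by ring
        rw [h5]
        refine (abs_add_le _ _).trans ?_
        rw [abs_of_nonneg ht]
        linarith
      have h5 : |h (rv x)| * nr v ≤ (t + C * √t) * nr v := mul_le_mul_of_nonneg_right h4 hnv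
      linarith
    have h3 := mm_le_of_Z hE (l := 1 / √t) (by positivity) x (h (rv x)) (1 / C) (by positivity) hx3
    have h4 : H * (1 / √t) * n1 x ≤ H * ((1 + C) * nr v + C) * √t := by
      have h5 : (1 / √t) * n1 x ≤ ((1 + C) * nr v + C) * √t := by
        rw [one_div, inv_mul_le_iff₀ hq0]
        refine hn1.trans ?_
        have h6 : C * √t ≤ C * t := by
          refine mul_le_mul_of_nonneg_left ?_ (by linarith)
          nlinarith
        calc (t + C * √t) * nr v + C * √t ≤ (t + C * t) * nr v + C * t := by gcongr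
          _ = ((1 + C) * nr v + C) * t := by ring
          _ = ((1 + C) * nr v + C) * (√t * √t) := by rw [hqt]
          _ = √t * (((1 + C) * nr v + C) * √t) := by ring
      calc H * (1 / √t) * n1 x = H * ((1 / √t) * n1 x) := by ring
        _ ≤ H * (((1 + C) * nr v + C) * √t) := mul_le_mul_of_nonneg_left h5 hk0
        _ = _ := by ring
    have h5 : Real.log (1 / (1 / C)) / (1 / √t) = Real.log C * √t := by
      rw [one_div_one_div, div_div_eq_mul_div, div_one]
    have h6 := (abs_le.1 hx1).2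
    -- from the cell to the point
    have h7 : n1 (fl 1 (t • v) - x) ≤ d + C * √t * nr v + C * √t := by
      have h8 : rv (fl 1 (t • v) - x) = (rv (fl 1 (t • v)) - t • v) +
          ((t - h (rv x)) • v + -(rv x - h (rv x) • v)) := by
        rw [rv_sub, sub_smul]
        abel
      rw [← nr_rv, h8]
      refine (nr_add_le _ _).trans ?_
      have h9 := hfl t ht
      have h10 := nr_add_le ((t - h (rv x)) • v) (-(rv x - h (rv x) • v))
      rw [nr_smul, nr_neg, abs_sub_comm] at h10
      have h11 : |h (rv x) - t| * nr v ≤ C * √t * nr v := mul_le_mul_of_nonneg_right hx1 hnv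
      have h12 : nr (rv x - h (rv x) • v) ≤ C * √t := hx2
      linarith
    have h8 : mm P X (fl 1 (t • v)) ≤ mm P X x + mm P X (fl 1 (t • v) - x) := by
      have := hm.add x (fl 1 (t • v) - x)
      rwa [add_sub_cancel] at this
    have h9 := hm.hi (fl 1 (t • v) - x)
    have h10 : b * n1 (fl 1 (t • v) - x) ≤ b * (d + C * nr v + C) * √t := by
      calc b * n1 (fl 1 (t • v) - x) ≤ b * (d + C * √t * nr v + C * √t) :=
            mul_le_mul_of_nonneg_left h7 hb.le
        _ ≤ b * (d * √t + C * √t * nr v + C * √t) := by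
            refine mul_le_mul_of_nonneg_left ?_ hb.le
            nlinarith
        _ = _ := by ring
    rw [h5] at h3
    have h11 : mm P X (fl 1 (t • v)) ≤ t + A * √t := by
      rw [hA]
      nlinarith
    have h12 : 0 ≤ b * (t₀ * nr v + d) * √t := mul_nonneg hB0 hq0.le
    nlinarith

end Pool.Agent.Helper51.NP
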