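import Pool.Agent.Helper51.NP.E
import Pool.Agent.Helper51.NP.R
import Pool.Agent.Helper51.NP.G3
import Pool.Agent.Helper51.NP.H1
import Pool.Agent.Helper51.NP.H2
import Pool.Agent.Helper79.PG.Ad

/-!
# Block H3: the contradiction (owner: helper51)
-/

set_option autoImplicit false

namespace Pool.Agent.Helper51.NP

open MeasureTheory ProbabilityTheory Filter Pool.Agent.Helper79.GR Pool.Agent.Helper79.GQ
open scoped Topology

variable {Ω : Type*} [MeasurableSpace Ω] {P : Measure Ω} {d : ℕ} {X : Edge d → Ω → ℝ}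
  {ν : Measure ℝ} {a b : ℝ}

/-- numbers: a constant for `Flu` -/
private theorem nums (K : ℕ) (hK : 1 ≤ K) (nv : ℝ) (hnv : 0 ≤ nv) (ε : ℝ) (hε : 0 < ε) :
    ∃ C : ℕ, ∃ L₀ : ℕ, ∀ L : ℕ, L₀ ≤ L → ∀ l hq t n : ℝ, 0 < l → l ≤ (1 / 2) ^ L →
      (1 / 4) ^ L ≤ l → 1 / (K * l ^ 2) ≤ hq → hq ≤ (K : ℝ) ^ L → t ≤ K * L ^ 2 / l →
      n ≤ hq * nv + t →
      2 ^ L ≤ 1 / l ∧ (1 / l) ^ 2 ≤ C * hq ∧ n ≤ Real.exp (C * L) ∧
      (K * L ^ 2 / l : ℝ) ≤ L ^ C * (1 / l) ∧ 1 / (L : ℝ) ^ C ≤ (1 / (L : ℝ)) ^ K ∧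
      t ≤ ε * hq := by
  have hK' : (1 : ℝ) ≤ K := by exact_mod_cast hK
  have hK0 : (0 : ℝ) < K := by linarith
  -- `K ^ 2 * L ^ 2 * (1 / 2) ^ L → 0`
  have hlim : Tendsto (fun L : ℕ => (K : ℝ) ^ 2 * ((L : ℝ) ^ 2 * (1 / 2 : ℝ) ^ L)) atTop (𝓝 0) := by
    have h1 := tendsto_pow_const_mul_const_pow_of_abs_lt_one 2 (r := (1 / 2 : ℝ))
      (by rw [abs_of_pos (by norm_num)]; norm_num)
    have h2 := h1.const_mul ((K : ℝ) ^ 2)
    rwa [mul_zero] at h2
  obtain ⟨L₁, hL₁⟩ := eventually_atTop.1 (hlim.eventually (eventually_le_nhds hε))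
  obtain ⟨m, hm⟩ := exists_nat_ge nv
  set C : ℕ := 2 * K + m + 10 with hC
  refine ⟨C, max L₁ (K + 2), fun L hL l hq t n hl hl1 hl2 h1 h2 h3 h4 => ?_⟩
  have hLL : L₁ ≤ L := le_trans (le_max_left _ _) hL
  have hLK : K + 2 ≤ L := le_trans (le_max_right _ _) hL
  have hLK' : (K : ℝ) + 2 ≤ L := by exact_mod_cast hLK
  have hL1 : (1 : ℝ) ≤ L := by linarith
  have hL0 : (0 : ℝ) < L := by linarith
  have hCr : (C : ℝ) = 2 * K + m + 10 := by rw [hC]; push_cast; ring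
  have hl4 : 1 / l ≤ 4 ^ L := by
    rw [div_le_iff₀ hl]
    have h5 : (4 : ℝ) ^ L * (1 / 4) ^ L = 1 := by
      rw [← mul_pow]; norm_num
    have h6 : (0 : ℝ) < 4 ^ L := by positivity
    nlinarith
  have hq0 : 0 < hq := lt_of_lt_of_le (by positivity) h1
  refine ⟨?_, ?_, ?_, ?_, ?_, ?_⟩
  · rw [le_div_iff₀ hl]
    have h5 : (2 : ℝ) ^ L * (1 / 2) ^ L = 1 := by
      rw [← mul_pow]; norm_num
    have h6 : (0 : ℝ) < 2 ^ L := by positivity
    nlinarith
  · have h5 : (1 / l) ^ 2 = K * (1 / (K * l ^ 2)) := by field_simp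
    rw [h5]
    have h6 : (K : ℝ) ≤ C := by
      rw [hCr]
      have : (0 : ℝ) ≤ m := Nat.cast_nonneg m
      linarith
    exact mul_le_mul h6 h1 (by positivity) (by positivity)
  · -- the size
    have h5 : t ≤ K * L ^ 2 * 4 ^ L := by
      refine h3.trans ?_
      rw [mul_div_assoc]
      have : (L : ℝ) ^ 2 / l ≤ L ^ 2 * 4 ^ L := by
        rw [div_eq_mul_one_div]
        exact mul_le_mul_of_nonneg_left hl4 (by positivity)
      calc (K : ℝ) * (L ^ 2 / l) ≤ K * (L ^ 2 * 4 ^ L) :=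
            mul_le_mul_of_nonneg_left this hK0.le
        _ = K * L ^ 2 * 4 ^ L := by ring
    have e1 : ∀ x : ℝ, x ≤ Real.exp x := fun x => by linarith [Real.add_one_le_exp x]
    have e2 : (K : ℝ) ≤ Real.exp K := e1 _
    have e3 : (L : ℝ) ≤ Real.exp L := e1 _
    have e4 : (4 : ℝ) ≤ Real.exp 2 := by
      have h6 : (2 : ℝ) ≤ Real.exp 1 := by linarith [Real.add_one_le_exp (1 : ℝ)]
      have h7 : Real.exp 2 = Real.exp 1 * Real.exp 1 := by rw [← Real.exp_add]; norm_num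
      rw [h7]
      nlinarith
    have e5 : nv ≤ Real.exp (m * L) := by
      refine hm.trans ((e1 _).trans (Real.exp_le_exp.2 ?_))
      have : (0 : ℝ) ≤ m := Nat.cast_nonneg m
      nlinarith
    have e6 : (K : ℝ) ^ L ≤ Real.exp (K * L) := by
      rw [mul_comm (K : ℝ) L, Real.exp_nat_mul]
      exact pow_le_pow_left₀ hK0.le e2 L
    have e7 : (4 : ℝ) ^ L ≤ Real.exp (2 * L) := by
      rw [mul_comm (2 : ℝ) L, Real.exp_nat_mul]
      exact pow_le_pow_left₀ (by norm_num) e4 L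
    have e8 : (L : ℝ) ^ 2 ≤ Real.exp (2 * L) := by
      have : Real.exp (2 * L) = Real.exp L ^ 2 := by
        rw [← Real.exp_nat_mul]; norm_num
      rw [this]
      exact pow_le_pow_left₀ hL0.le e3 2
    have e9 : hq * nv ≤ Real.exp ((K + m) * L) := by
      have : Real.exp (((K : ℝ) + m) * L) = Real.exp (K * L) * Real.exp (m * L) := by
        rw [← Real.exp_add]; ring_nf
      rw [this]
      exact mul_le_mul (h2.trans e6) e5 hnv (Real.exp_pos _).le
    have e10 : (K : ℝ) * L ^ 2 * 4 ^ L ≤ Real.exp ((K + 4) * L) := by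
      have h6 : (K : ℝ) ≤ Real.exp (K * L) := by
        refine (e1 _).trans (Real.exp_le_exp.2 ?_)
        nlinarith
      have h7 : Real.exp (((K : ℝ) + 4) * L) =
          Real.exp (K * L) * Real.exp (2 * L) * Real.exp (2 * L) := by
        rw [← Real.exp_add, ← Real.exp_add]; ring_nf
      rw [h7]
      exact mul_le_mul (mul_le_mul h6 e8 (by positivity) (Real.exp_pos _).le) e7 (by positivity)
        (by positivity)
    have e11 : (2 : ℝ) ≤ Real.exp L := by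
      have := Real.add_one_le_exp (L : ℝ)
      linarith
    have e12 : ∀ u : ℝ, u ≤ C - 1 → Real.exp (u * L) ≤ Real.exp ((C - 1) * L) := fun u hu =>
      Real.exp_le_exp.2 (mul_le_mul_of_nonneg_right hu hL0.le)
    have hm0 : (0 : ℝ) ≤ m := Nat.cast_nonneg m
    calc n ≤ hq * nv + t := h4
      _ ≤ Real.exp ((C - 1) * L) + Real.exp ((C - 1) * L) := by
          refine add_le_add (e9.trans (e12 _ ?_)) ((h5.trans e10).trans (e12 _ ?_))
          · rw [hCr]; linarith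
          · rw [hCr]; linarith
      _ = 2 * Real.exp ((C - 1) * L) := by ring
      _ ≤ Real.exp L * Real.exp ((C - 1) * L) :=
          mul_le_mul_of_nonneg_right e11 (Real.exp_pos _).le
      _ = Real.exp (C * L) := by rw [← Real.exp_add]; ring_nf
  · rw [div_eq_mul_one_div]
    refine mul_le_mul_of_nonneg_right ?_ (by positivity)
    calc (K : ℝ) * L ^ 2 ≤ L * L ^ 2 := mul_le_mul_of_nonneg_right (by linarith) (by positivity)
      _ = (L : ℝ) ^ 3 := by ring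
      _ ≤ L ^ C := pow_le_pow_right₀ hL1 (by omega)
  · rw [one_div, one_div, inv_pow]
    refine inv_anti₀ (by positivity) (pow_le_pow_right₀ hL1 (by omega))
  · have h5 := hL₁ L hLL
    have h6 : t ≤ K * L ^ 2 / l := h3
    have h7 : (K : ℝ) * L ^ 2 / l ≤ ε * (1 / (K * l ^ 2)) := by
      rw [mul_one_div, div_le_div_iff₀ hl (by positivity)]
      have h8 : (K : ℝ) ^ 2 * (L ^ 2 * l) ≤ ε := by
        refine le_trans ?_ h5
        gcongr
      calc (K : ℝ) * L ^ 2 * (K * l ^ 2) = ((K : ℝ) ^ 2 * (L ^ 2 * l)) * l := by ring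
        _ ≤ ε * l := mul_le_mul_of_nonneg_right h8 hl.le
    exact h6.trans (h7.trans (mul_le_mul_of_nonneg_left h1 hε.le))

/-- the limit norm is not the maximum of finitely many linear functionals -/
theorem core (hd : 2 ≤ d) (hE : Env P X ν a b) (hν : ∀ x, ν {x} = 0) (G : Finset (F d →L[ℝ] ℝ))
    (hle : ∀ ρ ∈ G, ∀ x, ρ x ≤ uu P X x) (hcov : ∀ x, ∃ ρ ∈ G, ρ x = uu P X x) : False := by
  have hprob := hE.prob
  obtain ⟨v, h, s, ε, K, ρ, v', h', s', hcr⟩ := exists_crn hd (nrm_tc hE) G hle hcov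
  have hv : h v = 1 := hcr.vtx.hv
  obtain ⟨C, hC1, L₀, hp⟩ := exists_pack hE hcr.vtx
  obtain ⟨L₁, hrel⟩ := relevance (by omega) hE hν hv hC1
  obtain ⟨K₂, hK₂, L₂, hgt⟩ := good_tube hE hv hC1
  obtain ⟨C₂, L₃, hnum⟩ := nums K₂ hK₂ (nr v) (Finset.sum_nonneg fun i _ => abs_nonneg _) ε
    hcr.epos
  have hgl : ∀ i, ∃ K₁ : ℕ, ∀ (K : ℕ) (q : V d) (R : Finset (Edge d)) (L : ℝ), K₁ ≤ K →
      Flu P X b (h : F d →ₗ[ℝ] ℝ) v C₂ K q R L → ρ i (rv q) ≠ tc (mm P X) (rv q) := by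
    intro i
    obtain ⟨C', hC', hr⟩ := rate hE (hcr.vtx' i)
    refine glue hE (by omega) (φ := (h : F d →ₗ[ℝ] ℝ)) (v := v) hv (ρ := (ρ i : F d →ₗ[ℝ] ℝ))
      (fun x => hcr.le i x) (v' := v' i) (hcr.on i) ?_ (C' := 2 * C') ?_ C₂
    · intro h0
      have h1 := hcr.off i
      have h2 : tr v h (v' i) = 0 := by
        unfold tr
        have : v' i - h (v' i) • v = 0 := h0
        rw [this]
        simp [nr]
      rw [h2] at h1
      exact lt_irrefl _ h1
    · intro n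
      have h1 := hr n (Nat.cast_nonneg n)
      have h2 : fl 1 ((n : ℝ) • v' i) = fl n (v' i) := by
        funext j
        simp [fl]
      rw [h2] at h1
      rcases Nat.eq_zero_or_pos n with h0 | h0
      · subst h0
        have h3 : fl 0 (v' i) = 0 := by
          funext j
          simp [fl]
        have h4 := (subM_mm hE).hi 0
        rw [n1_zero, mul_zero] at h4
        rw [h3]
        simpa using h4
      · have h3 : (1 : ℝ) ≤ √n := Real.one_le_sqrt.2 (by exact_mod_cast h0)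
        nlinarith
  choose K₁ hK₁ using hgl
  set L : ℕ := L₀ + L₁ + L₂ + L₃ + Finset.univ.sup K₁ + 1 with hL
  obtain ⟨l, D, E, g, hpk⟩ := hp L (by omega)
  have hED := hrel L (by omega) l D E g hpk
  obtain ⟨q, N, hq1, hq2, hq3, hq4⟩ := hgt L (by omega) l D E g hpk hED
  have hq0 : 0 < h (rv q) := by
    refine lt_of_lt_of_le ?_ hq1
    have : (0 : ℝ) < K₂ := by exact_mod_cast hK₂
    have := hpk.lpos
    positivity
  obtain ⟨n1', n2, n3, n4, n5, n6⟩ := hnum L (by omega) l (h (rv q)) (tr v h (rv q)) (n1 q)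
    hpk.lpos hpk.lup hpk.llo hq1 hq2 hq3 (by
      have h1 := nr_le_tr (v := v) (h := h) (rv q)
      rw [abs_of_pos hq0] at h1
      exact h1)
  obtain ⟨i, hi⟩ := hcr.cov (rv q) n6
  have hKi : K₁ i ≤ Finset.univ.sup K₁ := Finset.le_sup (Finset.mem_univ i)
  refine hK₁ i L q (finite_tub v h (K₂ * L ^ 2 / l) N).toFinset (1 / l) (by omega) ?_ hi
  refine ⟨n1', n2, n3, hq3.trans n4, fun e he x hx => ?_, n5.trans (hq4.trans ?_)⟩
  · rw [Set.Finite.mem_toFinset] at he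
    exact ((he x hx).1).trans n4
  · refine measureReal_mono (fun ω hω => ?_) (measure_ne_top _ _)
    have h1 : T (cut (tub v h (K₂ * L ^ 2 / l) N) (4 * b) (cf X ω)) 0 q ≤ g (rv q) - 1 / l := hω
    have h2 := hpk.gle (rv q)
    have h3 := Pool.Agent.Helper79.PG.ncut_coe (finite_tub v h (K₂ * L ^ 2 / l) N).toFinset
      (4 * b) (cf X ω)
    rw [Set.Finite.coe_toFinset] at h3
    rw [h3] at h1
    exact h1.trans (by
      unfold uu at h2
      linarith)

end Pool.Agent.Helper51.NP
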